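import Mathlib

/-! Lower bound for the number of matrices over `ℤ/p^i` commuting with a given matrix. -/

namespace Pool.Agent.Helper43Reg

open Matrix

section kry
variable {R : Type*} [CommRing R] {n : ℕ}

/-- the matrix with rows `W^k · (1,...,1)` -/
def kry (W : Matrix (Fin n) (Fin n) R) : Matrix (Fin n) (Fin n) R :=
  Matrix.of fun k i => ((W ^ (k : ℕ)) *ᵥ (fun _ => 1)) i

theorem kry_map {S : Type*} [CommRing S] (f : R →+* S) (W : Matrix (Fin n) (Fin n) R) :
    (kry W).map f = kry (W.map f) := by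
  ext k i
  simp only [kry, Matrix.map_apply, Matrix.of_apply]
  have h1 : (W.map f) ^ (k : ℕ) = (W ^ (k : ℕ)).map f := by
    have := map_pow f.mapMatrix W (k : ℕ)
    simpa using this.symm
  rw [h1]
  simp [Matrix.mulVec, dotProduct]

theorem kry_smul (c : R) (W : Matrix (Fin n) (Fin n) R) :
    (kry (c • W)).det = (∏ k : Fin n, c ^ (k : ℕ)) * (kry W).det := by
  have h1 : kry (c • W) = Matrix.of fun (k : Fin n) i => c ^ (k : ℕ) * kry W k i := by
    ext k i
    simp only [kry, Matrix.of_apply]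
    rw [smul_pow, Matrix.smul_mulVec]
    simp
  rw [h1, Matrix.det_mul_column]

theorem kry_diag [IsDomain R] [CharZero R] : (kry (Matrix.diagonal (fun i : Fin n => ((i : ℕ) : R)))).det ≠ 0 := by
  have h1 : kry (Matrix.diagonal (fun i : Fin n => ((i : ℕ) : R))) =
      (Matrix.vandermonde (fun i : Fin n => ((i : ℕ) : R)))ᵀ := by
    ext k i
    simp only [kry, Matrix.of_apply, Matrix.transpose_apply, Matrix.vandermonde_apply]
    rw [Matrix.diagonal_pow, Matrix.mulVec_diagonal]
    simp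
  rw [h1, Matrix.det_transpose, Matrix.det_vandermonde_ne_zero_iff]
  intro i j hij
  exact Fin.ext (Nat.cast_injective hij)

theorem kry_li [IsDomain R] {W : Matrix (Fin n) (Fin n) R} (hW : (kry W).det ≠ 0) :
    LinearIndependent R (fun k : Fin n => W ^ (k : ℕ)) := by
  rw [Fintype.linearIndependent_iff]
  intro g hg
  have h1 : g ᵥ* kry W = 0 := by
    ext i
    have h2 : ((∑ k : Fin n, g k • W ^ (k : ℕ)) *ᵥ (fun _ => 1)) i = 0 := by rw [hg]; simp
    rw [Matrix.sum_mulVec] at h2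
    simp only [Finset.sum_apply, Matrix.smul_mulVec, Pi.smul_apply, smul_eq_mul] at h2
    simp only [Matrix.vecMul, dotProduct, kry, Matrix.of_apply, Pi.zero_apply]
    exact h2
  have h3 := Matrix.eq_zero_of_vecMul_eq_zero hW h1
  intro i
  rw [h3]; rfl

end kry

section padic
variable {p : ℕ} [hp : Fact p.Prime] {n : ℕ}

theorem exists_cyclic (W : Matrix (Fin n) (Fin n) ℤ_[p]) (j : ℕ) : ∃ L ≥ j,
    (kry (W + (p : ℤ_[p]) ^ L • Matrix.diagonal (fun i : Fin n => ((i : ℕ) : ℤ_[p])))).det ≠ 0 := by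
  by_contra hcon
  push Not at hcon
  let ι : ℤ_[p] →+* ℚ_[p] := algebraMap ℤ_[p] ℚ_[p]
  let Wh : Matrix (Fin n) (Fin n) ℚ_[p] := W.map ι
  let Dh : Matrix (Fin n) (Fin n) ℚ_[p] := Matrix.diagonal (fun i : Fin n => ((i : ℕ) : ℚ_[p]))
  let gm : Matrix (Fin n) (Fin n) (Polynomial ℚ_[p]) :=
    (Polynomial.X : Polynomial ℚ_[p]) • Wh.map Polynomial.C + Dh.map Polynomial.C
  let g : Polynomial ℚ_[p] := (kry gm).det
  have hev : ∀ s : ℚ_[p], g.eval s = (kry (s • Wh + Dh)).det := by
    intro s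
    have h1 : g.eval s = (Polynomial.evalRingHom s) g := rfl
    rw [h1]
    change (Polynomial.evalRingHom s) (kry gm).det = _
    rw [RingHom.map_det, RingHom.mapMatrix_apply, kry_map]
    congr 2
    ext i k
    simp [gm, Matrix.map_apply]
    exact mul_comm _ _
  have hg0 : g ≠ 0 := by
    intro h
    have h1 := hev 0
    rw [h, Polynomial.eval_zero, zero_smul, zero_add] at h1
    exact kry_diag h1.symm
  have hp0 : (p : ℚ_[p]) ≠ 0 := Nat.cast_ne_zero.2 hp.out.ne_zero
  have hroot : ∀ L ≥ j, g.IsRoot (((p : ℚ_[p]) ^ L)⁻¹) := by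
    intro L hL
    rw [Polynomial.IsRoot.def, hev]
    have h1 : ((p : ℚ_[p]) ^ L)⁻¹ • Wh + Dh = ((p : ℚ_[p]) ^ L)⁻¹ • (Wh + (p : ℚ_[p]) ^ L • Dh) := by
      rw [smul_add, smul_smul, inv_mul_cancel₀ (pow_ne_zero _ hp0), one_smul]
    rw [h1, kry_smul]
    have h2 : (kry (Wh + (p : ℚ_[p]) ^ L • Dh)).det = 0 := by
      have h3 := congrArg ι (hcon L hL)
      rw [map_zero, RingHom.map_det, RingHom.mapMatrix_apply, kry_map] at h3
      rw [← h3]
      congr 2
      ext i k
      simp only [Wh, Dh, Matrix.add_apply, Matrix.smul_apply, Matrix.map_apply, smul_eq_mul, map_add,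
        map_mul, map_pow, map_natCast]
      congr 2
      rcases eq_or_ne i k with h4 | h4
      · subst h4; simp
      · simp [Matrix.diagonal_apply_ne _ h4]
    rw [h2, mul_zero]
  apply hg0
  apply Polynomial.eq_zero_of_infinite_isRoot
  have hinj : Function.Injective (fun L : ℕ => ((p : ℚ_[p]) ^ (L + j))⁻¹) := by
    intro a b hab
    have h1 : (p : ℚ_[p]) ^ (a + j) = (p : ℚ_[p]) ^ (b + j) := inv_injective hab
    have h2 : p ^ (a + j) = p ^ (b + j) := by exact_mod_cast h1
    have := Nat.pow_right_injective hp.out.two_le h2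
    simpa using this
  refine (Set.infinite_range_of_injective hinj).mono ?_
  rintro _ ⟨L, rfl⟩
  exact hroot _ (Nat.le_add_left j L)

/-- the commutation operator -/
noncomputable def adm (W : Matrix (Fin n) (Fin n) ℤ_[p]) :
    Matrix (Fin n) (Fin n) ℤ_[p] →ₗ[ℤ_[p]] Matrix (Fin n) (Fin n) ℤ_[p] :=
  LinearMap.mulRight ℤ_[p] W - LinearMap.mulLeft ℤ_[p] W

theorem adm_apply (W X : Matrix (Fin n) (Fin n) ℤ_[p]) : adm W X = X * W - W * X := rfl

theorem finrank_range_adm {W : Matrix (Fin n) (Fin n) ℤ_[p]} (hW : (kry W).det ≠ 0) :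
    Module.finrank ℤ_[p] (LinearMap.range (adm W)) + n ≤ n * n := by
  have h1 := (LinearMap.ker (adm W)).finrank_quotient_add_finrank
  have h2 : Module.finrank ℤ_[p] (Matrix (Fin n) (Fin n) ℤ_[p]) = n * n := by
    rw [Module.finrank_matrix]; simp
  rw [h2, (adm W).quotKerEquivRange.finrank_eq] at h1
  rw [← h1]
  have hmem : ∀ k : Fin n, W ^ (k : ℕ) ∈ LinearMap.ker (adm W) := by
    intro k
    rw [LinearMap.mem_ker, adm_apply, ← pow_succ, ← pow_succ', sub_self]
  have h3 : LinearIndependent ℤ_[p] (fun k : Fin n => (⟨W ^ (k : ℕ), hmem k⟩ : LinearMap.ker (adm W))) := by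
    have h4 := kry_li hW
    apply LinearIndependent.of_comp (LinearMap.ker (adm W)).subtype
    exact h4
  have h5 := h3.fintype_card_le_finrank
  rw [Fintype.card_fin] at h5
  omega

theorem cent_card (W : Matrix (Fin n) (Fin n) ℤ_[p]) (i : ℕ) :
    (p ^ i) ^ (n * n) ≤ Nat.card {X : Matrix (Fin n) (Fin n) (ZMod (p ^ i)) //
      X * W.map (PadicInt.toZModPow i) = W.map (PadicInt.toZModPow i) * X} * (p ^ i) ^ (n * n - n) := by
  have hne : NeZero (p ^ i) := ⟨pow_ne_zero _ hp.out.ne_zero⟩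
  obtain ⟨L, hL, hW'⟩ := exists_cyclic W i
  set W' := W + (p : ℤ_[p]) ^ L • Matrix.diagonal (fun i : Fin n => ((i : ℕ) : ℤ_[p])) with hW'def
  let φ : ℤ_[p] →+* ZMod (p ^ i) := PadicInt.toZModPow i
  have hφs : Function.Surjective φ := ZMod.ringHom_surjective φ
  let Φ := φ.mapMatrix (m := Fin n)
  have hΦs : Function.Surjective Φ := by
    intro X
    choose f hf using fun i j => hφs (X i j)
    exact ⟨Matrix.of f, by ext i j; simp [Φ, hf]⟩
  have hφp : φ ((p : ℤ_[p]) ^ L) = 0 := by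
    rw [map_pow, map_natCast, ← Nat.cast_pow, ZMod.natCast_eq_zero_iff]
    exact pow_dvd_pow p hL
  have hΦW : Φ W' = W.map φ := by
    rw [hW'def, map_add]
    have : Φ ((p : ℤ_[p]) ^ L • Matrix.diagonal (fun i : Fin n => ((i : ℕ) : ℤ_[p]))) = 0 := by
      ext a b
      simp only [Φ, RingHom.mapMatrix_apply, Matrix.map_apply, Matrix.smul_apply, smul_eq_mul, map_mul,
        hφp, zero_mul, Matrix.zero_apply]
    rw [this, add_zero]; rfl
  let D : Matrix (Fin n) (Fin n) (ZMod (p ^ i)) →+ Matrix (Fin n) (Fin n) (ZMod (p ^ i)) :=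
    AddMonoidHom.mulRight (W.map φ) - AddMonoidHom.mulLeft (W.map φ)
  have hD : ∀ X, D X = X * W.map φ - W.map φ * X := fun X => rfl
  have hcardA : Nat.card (Matrix (Fin n) (Fin n) (ZMod (p ^ i))) = (p ^ i) ^ (n * n) := by
    change Nat.card (Fin n → Fin n → ZMod (p ^ i)) = _
    rw [Nat.card_fun, Nat.card_fun, Nat.card_zmod, Nat.card_fin, ← pow_mul]
  have hker : Nat.card D.ker = Nat.card {X : Matrix (Fin n) (Fin n) (ZMod (p ^ i)) //
      X * W.map (PadicInt.toZModPow i) = W.map (PadicInt.toZModPow i) * X} := by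
    apply Nat.card_congr
    refine Equiv.subtypeEquivRight fun X => ?_
    change D X = 0 ↔ _
    rw [hD, sub_eq_zero]
  have hprod : Nat.card D.ker * Nat.card D.range = (p ^ i) ^ (n * n) := by
    rw [← hcardA, ← AddSubgroup.index_ker]
    exact D.ker.card_mul_index
  rw [← hprod, ← hker]
  apply Nat.mul_le_mul_left
  -- the range
  have hfr := finrank_range_adm hW'
  set r := Module.finrank ℤ_[p] (LinearMap.range (adm W')) with hr
  let b := Module.finBasis ℤ_[p] (LinearMap.range (adm W'))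
  have hrep : ∀ y : D.range, ∃ v : Fin r → ZMod (p ^ i), ∑ k, v k • Φ (b k : Matrix (Fin n) (Fin n) ℤ_[p]) = y := by
    rintro ⟨y, X, rfl⟩
    obtain ⟨X, rfl⟩ := hΦs X
    let z : LinearMap.range (adm W') := ⟨adm W' X, LinearMap.mem_range_self _ _⟩
    refine ⟨fun k => φ (b.repr z k), ?_⟩
    have h1 : D (Φ X) = Φ (z : Matrix (Fin n) (Fin n) ℤ_[p]) := by
      rw [hD, ← hΦW]
      change _ = Φ (adm W' X)
      rw [adm_apply, map_sub, map_mul, map_mul]
    have h2 : (z : Matrix (Fin n) (Fin n) ℤ_[p]) = ∑ k, b.repr z k • (b k : Matrix (Fin n) (Fin n) ℤ_[p]) := by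
      have h3 := b.sum_repr z
      have h4 := congrArg (LinearMap.range (adm W')).subtype h3
      rw [map_sum] at h4
      simp only [map_smul, Submodule.subtype_apply] at h4
      exact h4.symm
    change _ = D (Φ X)
    rw [h1, h2, map_sum]
    refine Finset.sum_congr rfl fun k _ => ?_
    ext a c
    simp [Φ]
  choose v hv using hrep
  have hinj : Function.Injective v := by
    intro y y' h
    apply Subtype.ext
    rw [← hv y, ← hv y', h]
  have h5 := Nat.card_le_card_of_injective v hinj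
  have h6 : Nat.card (Fin r → ZMod (p ^ i)) = (p ^ i) ^ r := by
    rw [Nat.card_eq_fintype_card]; simp
  rw [h6] at h5
  refine le_trans h5 (Nat.pow_le_pow_right (Nat.pos_of_ne_zero (pow_ne_zero _ hp.out.ne_zero)) ?_)
  omega

end padic

end Pool.Agent.Helper43Reg
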