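import Mathlib
import Pool.Agent.Helper24_Reg.HallPetrescu

/-! Potent `p`-groups: power subgroups, iterated commutators, and the power structure of potent
finite `p`-groups. -/

namespace Pool.Agent.Helper43Reg

open scoped commutatorElement
open Subgroup

section basic
variable {G : Type*} [Group G]

/-- the subgroup generated by the `p`-th powers of elements of `K` -/
def pw (p : ℕ) (K : Subgroup G) : Subgroup G := closure ((fun a => a ^ p) '' (K : Set G))

theorem pow_mem_pw (p : ℕ) {K : Subgroup G} {a : G} (ha : a ∈ K) : a ^ p ∈ pw p K :=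
  subset_closure ⟨a, ha, rfl⟩

theorem pw_le {p : ℕ} {K M : Subgroup G} : pw p K ≤ M ↔ ∀ a ∈ K, a ^ p ∈ M := by
  unfold pw
  rw [closure_le]
  constructor
  · intro h a ha; exact h ⟨a, ha, rfl⟩
  · rintro h _ ⟨a, ha, rfl⟩; exact h a ha

theorem pw_mono (p : ℕ) {K L : Subgroup G} (h : K ≤ L) : pw p K ≤ pw p L :=
  pw_le.2 fun _ ha => pow_mem_pw p (h ha)

theorem pw_le_self (p : ℕ) (K : Subgroup G) : pw p K ≤ K :=
  pw_le.2 fun _ ha => K.pow_mem ha p

instance pw_normal (p : ℕ) (K : Subgroup G) [hK : K.Normal] : (pw p K).Normal := by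
  refine ⟨fun n hn g => ?_⟩
  have h : pw p K ≤ (pw p K).comap (MulAut.conj g).toMonoidHom := by
    rw [pw_le]
    intro a ha
    rw [mem_comap]
    simp only [MulEquiv.toMonoidHom_eq_coe, MonoidHom.coe_coe, map_pow]
    exact pow_mem_pw p (by rw [MulAut.conj_apply]; exact hK.conj_mem a ha g)
  have := h hn
  rw [mem_comap] at this
  simpa using this

theorem map_pw {H : Type*} [Group H] (f : G →* H) (p : ℕ) (K : Subgroup G) :
    (pw p K).map f = pw p (K.map f) := by
  unfold pw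
  rw [MonoidHom.map_closure]
  congr 1
  ext z
  simp only [Set.mem_image, SetLike.mem_coe, coe_map]
  constructor
  · rintro ⟨_, ⟨a, ha, rfl⟩, rfl⟩
    exact ⟨f a, ⟨a, ha, rfl⟩, (map_pow f a p).symm⟩
  · rintro ⟨_, ⟨a, ha, rfl⟩, rfl⟩
    exact ⟨a ^ p, ⟨a, ha, rfl⟩, map_pow f a p⟩

/-- iterated commutators `⁅⁅N, K⁆, K⁆ ...` -/
def itc (N K : Subgroup G) : ℕ → Subgroup G
  | 0 => N
  | k + 1 => ⁅itc N K k, K⁆

@[simp] theorem itc_zero (N K : Subgroup G) : itc N K 0 = N := rfl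
theorem itc_succ (N K : Subgroup G) (k : ℕ) : itc N K (k + 1) = ⁅itc N K k, K⁆ := rfl

theorem itc_eq_lcs (S : Subgroup G) (k : ℕ) : itc S S k = S.lowerCentralSeries k := by
  induction k with
  | zero => rfl
  | succ k ih => rw [itc_succ, ih, Subgroup.lowerCentralSeries_succ]

instance itc_normal (N K : Subgroup G) [hN : N.Normal] [hK : K.Normal] (k : ℕ) : (itc N K k).Normal := by
  induction k with
  | zero => exact hN
  | succ k ih => rw [itc_succ]; infer_instance

theorem itc_antitone (N : Subgroup G) [N.Normal] : Antitone (itc N ⊤) := by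
  refine antitone_nat_of_succ_le fun k => ?_
  rw [itc_succ]
  exact commutator_le_left _ _

theorem itc_shift (N K : Subgroup G) (k : ℕ) : itc ⁅N, K⁆ K k = itc N K (k + 1) := by
  induction k with
  | zero => rfl
  | succ k ih => rw [itc_succ, ih, ← itc_succ]

theorem map_itc {H : Type*} [Group H] (f : G →* H) (N K : Subgroup G) (k : ℕ) :
    (itc N K k).map f = itc (N.map f) (K.map f) k := by
  induction k with
  | zero => rfl
  | succ k ih => rw [itc_succ, itc_succ, Subgroup.map_commutator, ih]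

/-- elements commuting with `w` modulo `M` -/
def centMod (M : Subgroup G) [M.Normal] (w : G) : Subgroup G :=
  (centralizer {(QuotientGroup.mk' M w)}).comap (QuotientGroup.mk' M)

theorem mem_centMod {M : Subgroup G} [M.Normal] {w g : G} : g ∈ centMod M w ↔ ⁅g, w⁆ ∈ M := by
  unfold centMod
  rw [mem_comap, mem_centralizer_iff_commutator_eq_one]
  constructor
  · intro h
    have h1 := h _ (Set.mem_singleton _)
    rw [← map_commutatorElement] at h1
    have h2 : ⁅w, g⁆ ∈ M := by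
      rw [← QuotientGroup.ker_mk' M, MonoidHom.mem_ker]; exact h1
    rw [← commutatorElement_inv]
    exact M.inv_mem h2
  · intro h z hz
    rw [Set.mem_singleton_iff] at hz
    rw [hz, ← map_commutatorElement, ← MonoidHom.mem_ker, QuotientGroup.ker_mk' M,
      ← commutatorElement_inv]
    exact M.inv_mem h

theorem comm_mem_symm {M : Subgroup G} {a b : G} (h : ⁅a, b⁆ ∈ M) : ⁅b, a⁆ ∈ M := by
  rw [← commutatorElement_inv]; exact M.inv_mem h

theorem centMod_mono {M N : Subgroup G} [M.Normal] [N.Normal] (h : M ≤ N) (w : G) :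
    centMod M w ≤ centMod N w := fun _ hg => mem_centMod.2 (h (mem_centMod.1 hg))

theorem le_centMod {M A : Subgroup G} [M.Normal] {w : G} (h : ⁅A, (⊤ : Subgroup G)⁆ ≤ M) :
    A ≤ centMod M w := fun _ ha => mem_centMod.2 (h (commutator_mem_commutator ha (mem_top w)))

theorem commutator_le_iff_centMod {M A B : Subgroup G} [M.Normal] :
    ⁅A, B⁆ ≤ M ↔ ∀ b ∈ B, A ≤ centMod M b := by
  rw [commutator_le]
  constructor
  · intro h b hb a ha; exact mem_centMod.2 (h a ha b hb)
  · intro h a ha b hb; exact mem_centMod.1 (h b hb ha)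

theorem commutator_sup_le {M A B C : Subgroup G} [M.Normal] (h1 : ⁅A, C⁆ ≤ M) (h2 : ⁅B, C⁆ ≤ M) :
    ⁅A ⊔ B, C⁆ ≤ M := by
  rw [commutator_le_iff_centMod] at h1 h2 ⊢
  intro b hb
  exact sup_le (h1 b hb) (h2 b hb)

/-- the three subgroups lemma -/
theorem three_le (A B C : Subgroup G) [A.Normal] [B.Normal] [C.Normal] :
    ⁅A, ⁅B, C⁆⁆ ≤ ⁅⁅A, B⁆, C⁆ ⊔ ⁅⁅A, C⁆, B⁆ := by
  set M := ⁅⁅A, B⁆, C⁆ ⊔ ⁅⁅A, C⁆, B⁆ with hM
  have hMn : M.Normal := by rw [hM]; infer_instance
  let f := QuotientGroup.mk' M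
  have hf : ∀ X : Subgroup G, X ≤ M → X.map f = ⊥ := by
    intro X hX
    rw [Subgroup.map_eq_bot_iff, QuotientGroup.ker_mk']; exact hX
  have h1 : ⁅⁅C.map f, A.map f⁆, B.map f⁆ = ⊥ := by
    rw [← Subgroup.map_commutator, ← Subgroup.map_commutator, commutator_comm C A]
    exact hf _ le_sup_right
  have h2 : ⁅⁅A.map f, B.map f⁆, C.map f⁆ = ⊥ := by
    rw [← Subgroup.map_commutator, ← Subgroup.map_commutator]
    exact hf _ le_sup_left
  have h3 := commutator_commutator_eq_bot_of_rotate h1 h2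
  rw [← Subgroup.map_commutator, ← Subgroup.map_commutator, Subgroup.map_eq_bot_iff,
    QuotientGroup.ker_mk', commutator_comm] at h3
  exact h3

theorem itc_comm_lcs (N : Subgroup G) [N.Normal] (j : ℕ) : ∀ i,
    ⁅itc N ⊤ i, itc (⊤ : Subgroup G) ⊤ j⁆ ≤ itc N ⊤ (i + j + 1) := by
  induction j with
  | zero => intro i; exact le_rfl
  | succ j ih =>
    intro i
    rw [itc_succ ⊤ ⊤ j]
    refine le_trans (three_le _ _ _) (sup_le ?_ ?_)
    · refine le_trans (commutator_mono (ih i) le_rfl) ?_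
      rw [← itc_succ]; exact le_of_eq (by congr 1)
    · rw [← itc_succ]
      refine le_trans (ih (i + 1)) (le_of_eq ?_)
      congr 1; omega

theorem itc_le_lcs (N : Subgroup G) (k : ℕ) : itc N ⊤ k ≤ itc (⊤ : Subgroup G) ⊤ k := by
  induction k with
  | zero => exact le_top
  | succ k ih => rw [itc_succ, itc_succ]; exact commutator_mono ih le_rfl

/-- Nakayama-type lemma for nilpotent groups -/
theorem nak [hG : Group.IsNilpotent G] {A B : Subgroup G} [A.Normal] [B.Normal]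
    (h : A ≤ B ⊔ ⁅A, (⊤ : Subgroup G)⁆) : A ≤ B := by
  have key : ∀ k, A ≤ B ⊔ itc (⊤ : Subgroup G) ⊤ k := by
    intro k
    induction k with
    | zero => exact le_trans le_top le_sup_right
    | succ k ih =>
      refine le_trans h (sup_le le_sup_left ?_)
      refine le_trans (commutator_mono ih le_rfl) ?_
      apply commutator_sup_le
      · exact le_trans (commutator_le_left _ _) le_sup_left
      · exact le_sup_right
  obtain ⟨n, hn⟩ := Subgroup.nilpotent_iff_lowerCentralSeries.1 hG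
  have := key n
  rw [itc_eq_lcs, hn, sup_bot_eq] at this
  exact this

theorem comm_cyc (N : Subgroup G) [N.Normal] (x : G) :
    ⁅closure {x} ⊔ ⁅N, (⊤ : Subgroup G)⁆, closure {x} ⊔ ⁅N, (⊤ : Subgroup G)⁆⁆ ≤ itc N ⊤ 2 := by
  have hM : ⁅⁅N, (⊤ : Subgroup G)⁆, (⊤ : Subgroup G)⁆ ≤ itc N ⊤ 2 := le_rfl
  rw [commutator_le_iff_centMod]
  intro b hb
  refine sup_le ?_ (le_centMod hM)
  rw [closure_le, Set.singleton_subset_iff, SetLike.mem_coe, mem_centMod]
  apply comm_mem_symm
  rw [← mem_centMod]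
  refine (?_ : closure {x} ⊔ ⁅N, (⊤ : Subgroup G)⁆ ≤ _) hb
  refine sup_le ?_ (le_centMod hM)
  rw [closure_le, Set.singleton_subset_iff, SetLike.mem_coe, mem_centMod, commutatorElement_self]
  exact one_mem _

/-- membership of the correction product in the Hall-Petrescu formula -/
theorem hp_prod_mem {p : ℕ} (hp : p.Prime) {S M : Subgroup G} (c : ℕ → G)
    (hS : ∀ k, 2 ≤ k → k < p → c k ∈ S) (hM : pw p S ≤ M) (hcp : c p ∈ M) :
    ((List.range (p - 1)).map (fun k => c (k + 2) ^ (p.choose (k + 2)))).prod ∈ M := by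
  apply list_prod_mem
  intro z hz
  obtain ⟨k, hk, rfl⟩ := List.mem_map.1 hz
  have hk' := List.mem_range.1 hk
  rcases Nat.lt_or_ge (k + 2) p with h | h
  · have h5 : p ∣ p.choose (k + 2) := hp.dvd_choose_self (by omega) h
    have : c (k + 2) ^ (p.choose (k + 2)) = (c (k + 2) ^ (p.choose (k + 2) / p)) ^ p := by
      rw [← pow_mul, Nat.div_mul_cancel h5]
    rw [this]
    exact hM (pow_mem_pw p (S.pow_mem (hS _ (by omega) h) _))
  · have : k + 2 = p := by omega
    rw [this, Nat.choose_self, pow_one]; exact hcp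

theorem pw_comm_le {p : ℕ} (hp : p.Prime) (N : Subgroup G) [N.Normal] :
    ⁅pw p N, (⊤ : Subgroup G)⁆ ≤ pw p ⁅N, (⊤ : Subgroup G)⁆ ⊔ itc N ⊤ p := by
  set M := pw p ⁅N, (⊤ : Subgroup G)⁆ ⊔ itc N ⊤ p with hM
  have hMn : M.Normal := by rw [hM]; infer_instance
  rw [commutator_le_iff_centMod]
  intro y _
  rw [pw_le]
  intro x hx
  rw [mem_centMod]
  -- the filtration
  let F : ℕ → Subgroup G := fun k => if k ≤ 1 then closure {x} ⊔ ⁅N, (⊤ : Subgroup G)⁆ else itc N ⊤ k
  have hF1 : ∀ k, k ≤ 1 → F k = closure {x} ⊔ ⁅N, (⊤ : Subgroup G)⁆ := fun k hk => if_pos hk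
  have hF2 : ∀ k, 2 ≤ k → F k = itc N ⊤ k := fun k hk => if_neg (by omega)
  have hN1 : itc N ⊤ 2 ≤ ⁅N, (⊤ : Subgroup G)⁆ := itc_antitone N (show 1 ≤ 2 by norm_num)
  have hanti : Antitone F := by
    intro i j hij
    rcases Nat.lt_or_ge i 2 with h | h
    · rcases Nat.lt_or_ge j 2 with h' | h'
      · rw [hF1 i (by omega), hF1 j (by omega)]
      · rw [hF1 i (by omega), hF2 j h']
        exact le_trans (itc_antitone N h') (le_trans hN1 le_sup_right)
    · rw [hF2 i h, hF2 j (by omega)]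
      exact itc_antitone N hij
  have h1 : ∀ i j, i ≤ 1 → 2 ≤ j → ⁅F j, F i⁆ ≤ F (i + j) := by
    intro i j hi hj
    rw [hF2 j hj, hF2 (i + j) (by omega)]
    refine le_trans (commutator_mono le_rfl le_top) ?_
    rw [← itc_succ]
    exact itc_antitone N (by omega)
  have hcomm : ∀ i j, ⁅F i, F j⁆ ≤ F (i + j) := by
    intro i j
    rcases Nat.lt_or_ge i 2 with h | h
    · rcases Nat.lt_or_ge j 2 with h' | h'
      · have h2 : ⁅F i, F j⁆ ≤ F 2 := by
          rw [hF1 i (by omega), hF1 j (by omega), hF2 2 le_rfl]; exact comm_cyc N x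
        exact le_trans h2 (hanti (by omega))
      · rw [commutator_comm]; exact h1 i j (by omega) h'
    · rcases Nat.lt_or_ge j 2 with h' | h'
      · rw [add_comm]; exact h1 j i (by omega) h
      · rw [hF2 i h, hF2 j h', hF2 (i + j) (by omega)]
        refine le_trans (commutator_mono le_rfl (itc_le_lcs N j)) ?_
        exact le_trans (itc_comm_lcs N j i) (itc_antitone N (by omega))
  have hyx : ⁅y, x⁆ ∈ ⁅N, (⊤ : Subgroup G)⁆ := by
    rw [commutator_comm]; exact commutator_mem_commutator (mem_top y) hx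
  obtain ⟨c, hc, he⟩ := Pool.Agent.Helper24Reg.hall_petrescu F hanti hcomm ⁅y, x⁆ x
    (by rw [hF1 1 le_rfl]; exact mem_sup_right hyx)
    (by rw [hF1 1 le_rfl]; exact mem_sup_left (subset_closure rfl)) p hp.two_le
  set u := ((List.range (p - 1)).map (fun k => c (k + 2) ^ (p.choose (k + 2)))).prod with hu
  have hum : u ∈ M := by
    refine hp_prod_mem hp (S := ⁅N, (⊤ : Subgroup G)⁆) c ?_ le_sup_left ?_
    · intro k hk _
      have := hc k
      rw [hF2 k hk] at this
      exact (le_trans (itc_antitone N hk) hN1) this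
    · have := hc p
      rw [hF2 p hp.two_le] at this
      exact mem_sup_right this
  have e1 : ⁅x ^ p, y⁆ = x ^ p * ((⁅y, x⁆ * x) ^ p)⁻¹ := by
    have : ⁅y, x⁆ * x = y * x * y⁻¹ := by simp only [commutatorElement_def]; group
    rw [this, conj_pow, commutatorElement_def]
    group
  rw [e1, he]
  have e2 : x ^ p * (⁅y, x⁆ ^ p * x ^ p * u)⁻¹ = (x ^ p * u⁻¹ * (x ^ p)⁻¹) * (⁅y, x⁆ ^ p)⁻¹ := by group
  rw [e2]
  refine M.mul_mem (hMn.conj_mem _ (M.inv_mem hum) _) (M.inv_mem ?_)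
  exact mem_sup_left (pow_mem_pw p hyx)

/-- transfer of potency from `N` to `⁅N, G⁆` -/
theorem potent_step {p : ℕ} (hp : p.Prime) [Group.IsNilpotent G] (N : Subgroup G) [N.Normal]
    (h : itc N ⊤ (p - 2) ≤ pw p N) :
    ⁅pw p N, (⊤ : Subgroup G)⁆ ≤ pw p ⁅N, (⊤ : Subgroup G)⁆ ∧
      itc ⁅N, (⊤ : Subgroup G)⁆ ⊤ (p - 2) ≤ pw p ⁅N, (⊤ : Subgroup G)⁆ := by
  have h2 := hp.two_le
  have h1 : ⁅pw p N, (⊤ : Subgroup G)⁆ ≤ pw p ⁅N, (⊤ : Subgroup G)⁆ := by
    apply nak
    refine le_trans (pw_comm_le hp N) (sup_le_sup_left ?_ _)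
    obtain ⟨q, hq⟩ : ∃ q, p = q + 2 := ⟨p - 2, by omega⟩
    have : itc N ⊤ p = ⁅⁅itc N ⊤ (p - 2), (⊤ : Subgroup G)⁆, (⊤ : Subgroup G)⁆ := by
      rw [← itc_succ, ← itc_succ]; congr 1; omega
    rw [this]
    exact commutator_mono (commutator_mono h le_rfl) le_rfl
  refine ⟨h1, ?_⟩
  rw [itc_shift, itc_succ]
  exact le_trans (commutator_mono h le_rfl) h1

theorem lcs_filtration : ∀ i j : ℕ, ⁅itc (⊤ : Subgroup G) ⊤ (i - 1), itc (⊤ : Subgroup G) ⊤ (j - 1)⁆ ≤
    itc (⊤ : Subgroup G) ⊤ (i + j - 1) := by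
  intro i j
  rcases Nat.eq_zero_or_pos i with rfl | hi
  · rw [zero_add, Nat.zero_sub]; exact commutator_le_right _ _
  · rcases Nat.eq_zero_or_pos j with rfl | hj
    · rw [add_zero]; exact commutator_le_left _ _
    · refine le_trans (itc_comm_lcs ⊤ (j - 1) (i - 1)) (itc_antitone ⊤ (by omega))

/-- Hall's formula modulo a subgroup `M` containing `pw p ⁅G, G⁆` and `γ_p(G)`. -/
theorem hall_mod {p : ℕ} (hp : p.Prime) {M : Subgroup G} (h1 : pw p ⁅(⊤ : Subgroup G), ⊤⁆ ≤ M)
    (h2 : itc (⊤ : Subgroup G) ⊤ (p - 1) ≤ M) (a b : G) :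
    ∃ u ∈ M, (a * b) ^ p = a ^ p * b ^ p * u := by
  obtain ⟨c, hc, he⟩ := Pool.Agent.Helper24Reg.hall_petrescu (fun k => itc (⊤ : Subgroup G) ⊤ (k - 1))
    (fun i j hij => itc_antitone ⊤ (by omega)) lcs_filtration a b
    (mem_top a) (mem_top b) p hp.two_le
  refine ⟨_, ?_, he⟩
  refine hp_prod_mem hp (S := ⁅(⊤ : Subgroup G), ⊤⁆) c ?_ h1 (h2 (hc p))
  intro k hk _
  exact itc_antitone ⊤ (show 1 ≤ k - 1 by omega) (hc k)

end basic

/-- In a potent finite nilpotent group products of `p`-th powers are `p`-th powers. -/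
theorem potent_mul {p : ℕ} (hp : p.Prime) (hp3 : 3 ≤ p) : ∀ (N : ℕ) (G : Type*) [Group G] [Finite G]
    [Group.IsNilpotent G], Nat.card G ≤ N → itc (⊤ : Subgroup G) ⊤ (p - 2) ≤ pw p ⊤ →
    ∀ a b : G, ∃ c : G, c ^ p = a ^ p * b ^ p := by
  intro N
  induction N with
  | zero =>
    intro G _ _ _ hc
    have := Nat.card_pos (α := G)
    omega
  | succ N ih =>
    intro G _ _ _ hc hpot a b
    have hst := potent_step hp (⊤ : Subgroup G) hpot
    have hpot' : itc (⊤ : Subgroup G) ⊤ (p - 1) ≤ pw p ⁅(⊤ : Subgroup G), ⊤⁆ := by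
      have := hst.2
      rw [itc_shift] at this
      rwa [show p - 2 + 1 = p - 1 by omega] at this
    obtain ⟨u, hu, he⟩ := hall_mod hp le_rfl hpot' a b
    set K₁ : Subgroup G := closure {a * b} ⊔ ⁅(⊤ : Subgroup G), ⊤⁆ with hK₁
    have hK₁c : ⁅K₁, K₁⁆ ≤ itc ⊤ ⊤ 2 := comm_cyc ⊤ (a * b)
    by_cases hK : K₁ = ⊤
    · -- the group is abelian
      have h1 : ⁅(⊤ : Subgroup G), (⊤ : Subgroup G)⁆ ≤ (⊥ : Subgroup G) := by
        apply nak
        rw [bot_sup_eq]
        calc ⁅(⊤ : Subgroup G), ⊤⁆ = ⁅K₁, K₁⁆ := by rw [hK]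
          _ ≤ _ := hK₁c
      refine ⟨a * b, ?_⟩
      have h2 : u = 1 := by
        have := pw_le_self p _ hu
        exact mem_bot.1 (h1 this)
      rw [he, h2, mul_one]
    · have hlt : Nat.card K₁ < Nat.card G := by
        apply lt_of_le_of_ne (Subgroup.card_le_card_group K₁)
        intro h
        exact hK (Subgroup.eq_top_of_card_eq K₁ h)
      have hKle : ⁅(⊤ : Subgroup G), ⊤⁆ ≤ K₁ := le_sup_right
      have hstep : ∀ j, itc K₁ K₁ (j + 1) ≤ itc (⊤ : Subgroup G) ⊤ (j + 2) := by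
        intro j
        induction j with
        | zero => exact hK₁c
        | succ j ihj =>
          rw [itc_succ, itc_succ ⊤ ⊤]
          exact commutator_mono ihj le_top
      have hpotK : itc (⊤ : Subgroup K₁) ⊤ (p - 2) ≤ pw p ⊤ := by
        rw [← Subgroup.map_le_map_iff_of_injective K₁.subtype_injective, map_itc, map_pw,
          ← MonoidHom.range_eq_map, K₁.range_subtype]
        obtain ⟨q, hq⟩ : ∃ q, p = q + 3 := ⟨p - 3, by omega⟩
        have e1 : p - 2 = q + 1 := by omega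
        have e2 : p - 1 = q + 2 := by omega
        rw [e1]
        refine le_trans (hstep q) ?_
        rw [← e2]
        exact le_trans hpot' (pw_mono p hKle)
      have hmul := ih K₁ (by omega) hpotK
      have hall : ∀ z ∈ pw p (⊤ : Subgroup K₁), ∃ c : K₁, c ^ p = z := by
        intro z hz
        unfold pw at hz
        induction hz using Subgroup.closure_induction with
        | mem z hz => obtain ⟨a, _, rfl⟩ := hz; exact ⟨a, rfl⟩
        | one => exact ⟨1, one_pow p⟩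
        | mul z w _ _ hz hw =>
          obtain ⟨c, rfl⟩ := hz
          obtain ⟨d, rfl⟩ := hw
          exact hmul c d
        | inv z _ hz =>
          obtain ⟨c, rfl⟩ := hz
          exact ⟨c⁻¹, inv_pow c p⟩
      have hg : a ^ p * b ^ p ∈ pw p K₁ := by
        have : a ^ p * b ^ p = (a * b) ^ p * u⁻¹ := by rw [he]; group
        rw [this]
        refine (pw p K₁).mul_mem (pow_mem_pw p (mem_sup_left (subset_closure rfl))) ?_
        exact (pw p K₁).inv_mem (pw_mono p hKle hu)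
      have hg2 : a ^ p * b ^ p ∈ (pw p (⊤ : Subgroup K₁)).map K₁.subtype := by
        rw [map_pw, ← MonoidHom.range_eq_map, K₁.range_subtype]; exact hg
      obtain ⟨z, hz, hz'⟩ := hg2
      obtain ⟨c, rfl⟩ := hall z hz
      exact ⟨c, by rw [← hz']; simp⟩

/-- In a potent finite nilpotent group every element of the power subgroup is a `p`-th power. -/
theorem potent_pow {p : ℕ} (hp : p.Prime) (hp3 : 3 ≤ p) (G : Type*) [Group G] [Finite G]
    [Group.IsNilpotent G] (h : itc (⊤ : Subgroup G) ⊤ (p - 2) ≤ pw p ⊤) :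
    ∀ z ∈ pw p (⊤ : Subgroup G), ∃ c : G, c ^ p = z := by
  intro z hz
  unfold pw at hz
  induction hz using Subgroup.closure_induction with
  | mem z hz => obtain ⟨a, _, rfl⟩ := hz; exact ⟨a, rfl⟩
  | one => exact ⟨1, one_pow p⟩
  | mul z w _ _ hz hw =>
    obtain ⟨c, rfl⟩ := hz
    obtain ⟨d, rfl⟩ := hw
    exact potent_mul hp hp3 _ G le_rfl h c d
  | inv z _ hz =>
    obtain ⟨c, rfl⟩ := hz
    exact ⟨c⁻¹, inv_pow c p⟩

end Pool.Agent.Helper43Reg
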