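import Mathlib
import Pool.Agent.Helper43_Reg.Potent

/-! The finite level: counting in a finite `p`-group in which `a^p = b^p` iff `a⁻¹ b ∈ Ω`. -/

namespace Pool.Agent.Helper43Reg

open scoped commutatorElement
open Subgroup

section idx
variable {G : Type*} [Group G]

theorem relIndex_le_of_fun (H K : Subgroup G) {X : Type*} [Finite X] (f : G → X)
    (hf : ∀ a ∈ K, ∀ b ∈ K, f a = f b → a⁻¹ * b ∈ H) :
    H.relIndex K ≠ 0 ∧ H.relIndex K ≤ Nat.card X := by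
  let F : (K ⧸ H.subgroupOf K) → X := fun q => f (q.out : K)
  have hF : Function.Injective F := by
    intro q r hqr
    have h1 := hf _ (q.out : K).2 _ (r.out : K).2 hqr
    rw [← QuotientGroup.out_eq' q, ← QuotientGroup.out_eq' r, QuotientGroup.eq, mem_subgroupOf]
    exact h1
  have hfin : Finite (K ⧸ H.subgroupOf K) := Finite.of_injective F hF
  refine ⟨index_ne_zero_of_finite, ?_⟩
  exact Nat.card_le_card_of_injective F hF

theorem card_inf_mul_relIndex (S K : Subgroup G) :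
    Nat.card ↥(K ⊓ S) * S.relIndex K = Nat.card K := by
  have h := relIndex_mul_relIndex ⊥ (K ⊓ S) K bot_le inf_le_left
  rwa [relIndex_bot_left, relIndex_bot_left, inf_relIndex_left] at h

variable [Finite G]

theorem relIndex_ne (A B : Subgroup G) : A.relIndex B ≠ 0 := index_ne_zero_of_finite

theorem card_mul_le {A B T : Subgroup G} (hA : A ≤ T) (hB : B ≤ T) :
    Nat.card A * Nat.card B ≤ Nat.card T * Nat.card ↥(A ⊓ B) := by
  have h1 := card_inf_mul_relIndex B A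
  have h2 := card_inf_mul_relIndex B T
  rw [inf_eq_right.2 hB] at h2
  have h3 : B.relIndex A ≤ B.relIndex T := relIndex_le_of_le_right hA (relIndex_ne _ _)
  rw [← h1, ← h2]
  calc Nat.card ↥(A ⊓ B) * B.relIndex A * Nat.card B
      = B.relIndex A * (Nat.card B * Nat.card ↥(A ⊓ B)) := by ring
    _ ≤ B.relIndex T * (Nat.card B * Nat.card ↥(A ⊓ B)) := Nat.mul_le_mul_right _ h3
    _ = _ := by ring

theorem p_le_relIndex {p : ℕ} (hp : p.Prime) (hG : IsPGroup p G) {A B : Subgroup G} (h : ¬ B ≤ A) :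
    p ≤ A.relIndex B := by
  have : Fact p.Prime := ⟨hp⟩
  obtain ⟨n, hn⟩ := IsPGroup.iff_card.1 (hG.to_subgroup B)
  have h1 : A.relIndex B ∣ p ^ n := by rw [← hn]; exact relIndex_dvd_card A B
  obtain ⟨k, _, hk⟩ := (Nat.dvd_prime_pow hp).1 h1
  have h2 : A.relIndex B ≠ 1 := fun h3 => h (relIndex_eq_one.1 h3)
  have h3 : k ≠ 0 := by rintro rfl; rw [pow_zero] at hk; exact h2 hk
  rw [hk]
  calc p = p ^ 1 := (pow_one p).symm
    _ ≤ p ^ k := Nat.pow_le_pow_right hp.pos (by omega)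

theorem chain_le {p : ℕ} (hp : p.Prime) (hG : IsPGroup p G) (D : ℕ → Subgroup G) (m : ℕ)
    (h1 : ∀ j < m, D (j + 1) ≤ D j) (h2 : ∀ j < m, ¬ D j ≤ D (j + 1)) :
    D m ≤ D 0 ∧ p ^ m ≤ (D m).relIndex (D 0) := by
  induction m with
  | zero => exact ⟨le_rfl, by simp⟩
  | succ m ih =>
    obtain ⟨h3, h4⟩ := ih (fun j hj => h1 j (by omega)) (fun j hj => h2 j (by omega))
    refine ⟨le_trans (h1 m (by omega)) h3, ?_⟩
    rw [← relIndex_mul_relIndex (D (m + 1)) (D m) (D 0) (h1 m (by omega)) h3, pow_succ, mul_comm]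
    exact Nat.mul_le_mul (p_le_relIndex hp hG (h2 m (by omega))) h4

end idx

section count
variable {G : Type*} [Group G] [Finite G] {p : ℕ} {Ω : Subgroup G}

theorem card_le_pw (hΩ : ∀ a b : G, a ^ p = b ^ p ↔ a⁻¹ * b ∈ Ω) (A : Subgroup G) :
    Nat.card A ≤ Nat.card (pw p A) * Nat.card Ω := by
  classical
  have h1 := card_inf_mul_relIndex Ω A
  let f : G → pw p A := fun a => if h : a ∈ A then ⟨a ^ p, pow_mem_pw p h⟩ else 1
  have hf : ∀ a ∈ A, ∀ b ∈ A, f a = f b → a⁻¹ * b ∈ Ω := by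
    intro a ha b hb hab
    simp only [f, dif_pos ha, dif_pos hb, Subtype.mk.injEq] at hab
    exact (hΩ a b).1 hab
  have h2 := (relIndex_le_of_fun Ω A f hf).2
  have h3 : Nat.card ↥(A ⊓ Ω) ≤ Nat.card Ω := card_le_of_le inf_le_right
  rw [← h1, mul_comm]
  exact Nat.mul_le_mul h2 h3

theorem count (hΩ : ∀ a b : G, a ^ p = b ^ p ↔ a⁻¹ * b ∈ Ω) {K : Subgroup G}
    (hK : ∀ g ∈ pw p K, ∃ a ∈ K, a ^ p = g) (S T : Subgroup G)
    (hST : ∀ a ∈ K, a ^ p ∈ S ↔ a ∈ T) :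
    Nat.card ↥(pw p K ⊓ S) * Nat.card ↥(K ⊓ Ω) = Nat.card ↥(K ⊓ T) := by
  classical
  have h1 := card_inf_mul_relIndex Ω (K ⊓ T)
  have h2 : K ⊓ T ⊓ Ω = K ⊓ Ω := by
    apply le_antisymm
    · exact inf_le_inf_right _ inf_le_left
    · intro a ha
      have ha1 : a ∈ K := ha.1
      have ha2 : a ∈ Ω := ha.2
      have haT : a ∈ T := by
        rw [← hST a ha1]
        have : a ^ p = 1 ^ p := by
          rw [hΩ]; simpa using ha2
        rw [this, one_pow]; exact S.one_mem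
      exact ⟨⟨ha1, haT⟩, ha2⟩
  rw [h2] at h1
  have h3 : Ω.relIndex (K ⊓ T) = Nat.card ↥(pw p K ⊓ S) := by
    apply le_antisymm
    · let f : G → ↥(pw p K ⊓ S) := fun a => if h : a ∈ K ⊓ T then
        ⟨a ^ p, pow_mem_pw p h.1, (hST a h.1).2 h.2⟩ else 1
      have hf : ∀ a ∈ K ⊓ T, ∀ b ∈ K ⊓ T, f a = f b → a⁻¹ * b ∈ Ω := by
        intro a ha b hb hab
        simp only [f, dif_pos ha, dif_pos hb] at hab
        exact (hΩ a b).1 (congrArg Subtype.val hab)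
      exact (relIndex_le_of_fun Ω (K ⊓ T) f hf).2
    · let F : (↥(K ⊓ T) ⧸ Ω.subgroupOf (K ⊓ T)) → ↥(pw p K ⊓ S) := fun q =>
        ⟨((q.out : ↥(K ⊓ T)) : G) ^ p, pow_mem_pw p (q.out : ↥(K ⊓ T)).2.1,
          (hST _ (q.out : ↥(K ⊓ T)).2.1).2 (q.out : ↥(K ⊓ T)).2.2⟩
      have hF : Function.Surjective F := by
        rintro ⟨g, hg1, hg2⟩
        obtain ⟨a, ha, rfl⟩ := hK g hg1
        have haT : a ∈ T := (hST a ha).1 hg2
        refine ⟨QuotientGroup.mk ⟨a, ha, haT⟩, ?_⟩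
        apply Subtype.ext
        change ((Quotient.out (QuotientGroup.mk (⟨a, ha, haT⟩ : ↥(K ⊓ T)) : ↥(K ⊓ T) ⧸ Ω.subgroupOf (K ⊓ T)) : ↥(K ⊓ T)) : G) ^ p = a ^ p
        rw [hΩ]
        have h4 := QuotientGroup.out_eq' (QuotientGroup.mk (⟨a, ha, haT⟩ : ↥(K ⊓ T)) : ↥(K ⊓ T) ⧸ Ω.subgroupOf (K ⊓ T))
        rw [QuotientGroup.eq, mem_subgroupOf] at h4
        exact h4
      exact Nat.card_le_card_of_surjective F hF
  rw [h3, mul_comm] at h1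
  exact h1

omit [Finite G] in
theorem pow_mem_Z_iff (hΩ : ∀ a b : G, a ^ p = b ^ p ↔ a⁻¹ * b ∈ Ω) [Ω.Normal] (w a : G) :
    a ^ p ∈ centMod (⊥ : Subgroup G) w ↔ a ∈ centMod Ω w := by
  rw [mem_centMod, mem_bot, ← (centMod Ω w).inv_mem_iff, mem_centMod]
  have h1 : ⁅a ^ p, w⁆ = a ^ p * ((w * a * w⁻¹) ^ p)⁻¹ := by
    rw [conj_pow, commutatorElement_def]; group
  have h2 : ⁅a⁻¹, w⁆ = a⁻¹ * (w * a * w⁻¹) := by rw [commutatorElement_def]; group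
  rw [h1, h2, ← hΩ, mul_inv_eq_one]

omit [Finite G] in
theorem pow_mem_T_iff {Ω₂ : Subgroup G} [Ω.Normal] [Ω₂.Normal]
    (hΩ₂ : ∀ a b : G, (a ^ p)⁻¹ * b ^ p ∈ Ω ↔ a⁻¹ * b ∈ Ω₂) (w a : G) :
    a ^ p ∈ centMod Ω w ↔ a ∈ centMod Ω₂ w := by
  rw [← (centMod Ω w).inv_mem_iff, mem_centMod, ← (centMod Ω₂ w).inv_mem_iff, mem_centMod]
  have h1 : ⁅(a ^ p)⁻¹, w⁆ = (a ^ p)⁻¹ * (w * a * w⁻¹) ^ p := by
    rw [conj_pow, commutatorElement_def]; group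
  have h2 : ⁅a⁻¹, w⁆ = a⁻¹ * (w * a * w⁻¹) := by rw [commutatorElement_def]; group
  rw [h1, h2, ← hΩ₂]

theorem stepF (hΩ : ∀ a b : G, a ^ p = b ^ p ↔ a⁻¹ * b ∈ Ω) [Ω.Normal] {K : Subgroup G} [K.Normal]
    (hK : ∀ g ∈ pw p K, ∃ a ∈ K, a ^ p = g) (w : G) :
    (centMod (pw p K) w).relIndex K * (centMod Ω w).relIndex K ≤
      (centMod (⊥ : Subgroup G) w).relIndex K := by
  set C := centMod (pw p K) w
  set T := centMod Ω w
  set Z := centMod (⊥ : Subgroup G) w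
  have hPC : pw p K ≤ C := le_centMod (commutator_le_left _ _)
  have hZC : Z ≤ C := centMod_mono bot_le w
  have e1 := count hΩ hK ⊤ ⊤ (fun a _ => by simp)
  have e2 := count hΩ hK Z T (fun a _ => pow_mem_Z_iff hΩ w a)
  rw [inf_top_eq, inf_top_eq] at e1
  have e3 := card_mul_le (A := pw p K) (B := K ⊓ Z) (T := K ⊓ C) (le_inf (pw_le_self p K) hPC)
    (inf_le_inf_left _ hZC)
  have e4 : pw p K ⊓ (K ⊓ Z) = pw p K ⊓ Z := by
    rw [← inf_assoc, inf_eq_left.2 (pw_le_self p K)]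
  rw [e4] at e3
  have key : Nat.card K * Nat.card ↥(K ⊓ Z) ≤ Nat.card ↥(K ⊓ C) * Nat.card ↥(K ⊓ T) := by
    rw [← e1, ← e2]
    calc Nat.card (pw p K) * Nat.card ↥(K ⊓ Ω) * Nat.card ↥(K ⊓ Z)
        = (Nat.card (pw p K) * Nat.card ↥(K ⊓ Z)) * Nat.card ↥(K ⊓ Ω) := by ring
      _ ≤ (Nat.card ↥(K ⊓ C) * Nat.card ↥(pw p K ⊓ Z)) * Nat.card ↥(K ⊓ Ω) := Nat.mul_le_mul_right _ e3
      _ = _ := by ring
  have c1 := card_inf_mul_relIndex C K
  have c2 := card_inf_mul_relIndex T K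
  have c3 := card_inf_mul_relIndex Z K
  have hC0 : 0 < Nat.card ↥(K ⊓ C) := Nat.card_pos
  have hT0 : 0 < Nat.card ↥(K ⊓ T) := Nat.card_pos
  refine Nat.le_of_mul_le_mul_right ?_ (Nat.mul_pos hC0 hT0)
  calc C.relIndex K * T.relIndex K * (Nat.card ↥(K ⊓ C) * Nat.card ↥(K ⊓ T))
      = (Nat.card ↥(K ⊓ C) * C.relIndex K) * (Nat.card ↥(K ⊓ T) * T.relIndex K) := by ring
    _ = Nat.card K * (Nat.card ↥(K ⊓ Z) * Z.relIndex K) := by rw [c1, c2, c3]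
    _ = Z.relIndex K * (Nat.card K * Nat.card ↥(K ⊓ Z)) := by ring
    _ ≤ Z.relIndex K * (Nat.card ↥(K ⊓ C) * Nat.card ↥(K ⊓ T)) := Nat.mul_le_mul_left _ key

theorem stepG (hΩ : ∀ a b : G, a ^ p = b ^ p ↔ a⁻¹ * b ∈ Ω) [Ω.Normal] {Ω₂ : Subgroup G} [Ω₂.Normal]
    (hΩ₂ : ∀ a b : G, (a ^ p)⁻¹ * b ^ p ∈ Ω ↔ a⁻¹ * b ∈ Ω₂) {K : Subgroup G} [K.Normal]
    (hK : ∀ g ∈ pw p K, ∃ a ∈ K, a ^ p = g) (w : G) :
    (centMod Ω w).relIndex K * (centMod Ω w).relIndex K ≤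
      (centMod (⊥ : Subgroup G) w).relIndex K * (centMod Ω₂ w).relIndex K := by
  set T2 := centMod Ω₂ w
  set T := centMod Ω w
  set Z := centMod (⊥ : Subgroup G) w
  have hZT : Z ≤ T := centMod_mono bot_le w
  have e1 := count hΩ hK T T2 (fun a _ => pow_mem_T_iff hΩ₂ w a)
  have e2 := count hΩ hK Z T (fun a _ => pow_mem_Z_iff hΩ w a)
  have e3 := card_mul_le (A := pw p K ⊓ T) (B := K ⊓ Z) (T := K ⊓ T) (inf_le_inf_right _ (pw_le_self p K))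
    (inf_le_inf_left _ hZT)
  have e4 : pw p K ⊓ T ⊓ (K ⊓ Z) = pw p K ⊓ Z := by
    apply le_antisymm
    · exact le_inf (le_trans inf_le_left inf_le_left) (le_trans inf_le_right inf_le_right)
    · exact le_inf (le_inf inf_le_left (le_trans inf_le_right hZT))
        (le_inf (le_trans inf_le_left (pw_le_self p K)) inf_le_right)
  rw [e4] at e3
  have key : Nat.card ↥(K ⊓ T2) * Nat.card ↥(K ⊓ Z) ≤ Nat.card ↥(K ⊓ T) * Nat.card ↥(K ⊓ T) := by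
    rw [← e1]
    calc Nat.card ↥(pw p K ⊓ T) * Nat.card ↥(K ⊓ Ω) * Nat.card ↥(K ⊓ Z)
        = (Nat.card ↥(pw p K ⊓ T) * Nat.card ↥(K ⊓ Z)) * Nat.card ↥(K ⊓ Ω) := by ring
      _ ≤ (Nat.card ↥(K ⊓ T) * Nat.card ↥(pw p K ⊓ Z)) * Nat.card ↥(K ⊓ Ω) := Nat.mul_le_mul_right _ e3
      _ = Nat.card ↥(K ⊓ T) * (Nat.card ↥(pw p K ⊓ Z) * Nat.card ↥(K ⊓ Ω)) := by ring
      _ = _ := by rw [e2]
  have c1 := card_inf_mul_relIndex T2 K
  have c2 := card_inf_mul_relIndex T K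
  have c3 := card_inf_mul_relIndex Z K
  have hT0 : 0 < Nat.card ↥(K ⊓ T) := Nat.card_pos
  refine Nat.le_of_mul_le_mul_right ?_ (Nat.mul_pos hT0 hT0)
  calc T.relIndex K * T.relIndex K * (Nat.card ↥(K ⊓ T) * Nat.card ↥(K ⊓ T))
      = (Nat.card ↥(K ⊓ T) * T.relIndex K) * (Nat.card ↥(K ⊓ T) * T.relIndex K) := by ring
    _ = (Nat.card ↥(K ⊓ Z) * Z.relIndex K) * (Nat.card ↥(K ⊓ T2) * T2.relIndex K) := by rw [c1, c2, c3]
    _ = (Z.relIndex K * T2.relIndex K) * (Nat.card ↥(K ⊓ T2) * Nat.card ↥(K ⊓ Z)) := by ring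
    _ ≤ (Z.relIndex K * T2.relIndex K) * (Nat.card ↥(K ⊓ T) * Nat.card ↥(K ⊓ T)) := Nat.mul_le_mul_left _ key

end count

end Pool.Agent.Helper43Reg
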