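import Mathlib
import Pool.Agent.Helper43_Reg.Core

/-! The chain `γ_{j+2}(G) · K^p`, `K = γ_2(G)`, in a finite `p`-group. -/

namespace Pool.Agent.Helper43Reg

open scoped commutatorElement
open Subgroup

section chain
variable {G : Type*} [Group G]

/-- `γ_{j+2}(G) · pw p γ_2(G)` -/
def EE (p : ℕ) (G : Type*) [Group G] (j : ℕ) : Subgroup G :=
  itc (⊤ : Subgroup G) ⊤ (j + 1) ⊔ pw p ⁅(⊤ : Subgroup G), (⊤ : Subgroup G)⁆

instance EE_normal (p j : ℕ) : (EE p G j).Normal := by unfold EE; infer_instance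

theorem pw_le_EE (p j : ℕ) : pw p ⁅(⊤ : Subgroup G), (⊤ : Subgroup G)⁆ ≤ EE p G j := le_sup_right

theorem EE_antitone (p : ℕ) : Antitone (EE p G) := fun i j hij =>
  sup_le_sup_right (itc_antitone ⊤ (by omega)) _

theorem EE_zero (p : ℕ) : EE p G 0 = ⁅(⊤ : Subgroup G), (⊤ : Subgroup G)⁆ := by
  unfold EE
  exact sup_eq_left.2 (pw_le_self p _)

theorem EE_comm (p j : ℕ) : ⁅EE p G j, (⊤ : Subgroup G)⁆ ≤ EE p G (j + 1) := by
  apply commutator_sup_le
  · exact le_sup_left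
  · exact le_trans (commutator_le_left _ _) le_sup_right

theorem EE_succ_le (p j : ℕ) : EE p G (j + 1) ≤ pw p ⁅(⊤ : Subgroup G), (⊤ : Subgroup G)⁆ ⊔
    ⁅EE p G j, (⊤ : Subgroup G)⁆ := by
  refine sup_le ?_ le_sup_left
  rw [itc_succ]
  exact le_trans (commutator_mono le_sup_left le_rfl) le_sup_right

theorem EE_stop [Group.IsNilpotent G] {p j : ℕ} (h : EE p G j ≤ EE p G (j + 1)) :
    EE p G j ≤ pw p ⁅(⊤ : Subgroup G), (⊤ : Subgroup G)⁆ :=
  nak (le_trans h (EE_succ_le p j))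

variable [Finite G] {p : ℕ}

theorem pw_relIndex_le {Ω : Subgroup G} (hΩ : ∀ a b : G, a ^ p = b ^ p ↔ a⁻¹ * b ∈ Ω) (K : Subgroup G) :
    (pw p K).relIndex K ≤ Nat.card Ω := by
  have h1 := card_inf_mul_relIndex (pw p K) K
  rw [inf_eq_right.2 (pw_le_self p K)] at h1
  have h2 := card_le_pw hΩ K
  rw [← h1] at h2
  exact Nat.le_of_mul_le_mul_left h2 Nat.card_pos

theorem lcs_le_pw (hp : p.Prime) (hG : IsPGroup p G) [Group.IsNilpotent G] {Ω : Subgroup G}
    (hΩ : ∀ a b : G, a ^ p = b ^ p ↔ a⁻¹ * b ∈ Ω) {d : ℕ} (hd : Nat.card Ω ≤ p ^ d) :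
    itc (⊤ : Subgroup G) ⊤ (d + 1) ≤ pw p ⁅(⊤ : Subgroup G), (⊤ : Subgroup G)⁆ := by
  by_contra h
  have h1 : ∀ j < d + 1, ¬ EE p G j ≤ EE p G (j + 1) := by
    intro j hj h2
    apply h
    refine le_trans (?_ : _ ≤ EE p G d) (le_trans (EE_antitone p (by omega)) (EE_stop h2))
    exact le_sup_left
  obtain ⟨_, h2⟩ := chain_le hp hG (EE p G) (d + 1) (fun j _ => EE_antitone p (by omega)) h1
  have h3 : (EE p G (d + 1)).relIndex (EE p G 0) ≤
      (pw p ⁅(⊤ : Subgroup G), (⊤ : Subgroup G)⁆).relIndex (EE p G 0) :=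
    relIndex_le_of_le_left (pw_le_EE p _) (relIndex_ne _ _)
  have h4 : (pw p ⁅(⊤ : Subgroup G), (⊤ : Subgroup G)⁆).relIndex (EE p G 0) ≤ Nat.card Ω := by
    rw [EE_zero]; exact pw_relIndex_le hΩ _
  have h5 : p ^ (d + 1) ≤ p ^ d := le_trans h2 (le_trans h3 (le_trans h4 hd))
  have h6 : p ^ d < p ^ (d + 1) := Nat.pow_lt_pow_right hp.one_lt (by omega)
  omega

omit [Finite G] in
theorem itc_comm_self (j : ℕ) :
    itc ⁅(⊤ : Subgroup G), (⊤ : Subgroup G)⁆ ⁅(⊤ : Subgroup G), (⊤ : Subgroup G)⁆ j ≤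
      itc (⊤ : Subgroup G) ⊤ (2 * j + 1) := by
  induction j with
  | zero => exact le_rfl
  | succ j ih =>
    rw [itc_succ]
    refine le_trans (commutator_mono ih (le_rfl : _ ≤ itc (⊤ : Subgroup G) ⊤ 1)) ?_
    exact itc_comm_lcs ⊤ 1 (2 * j + 1)

theorem K_pow (hp : p.Prime) (hp3 : 3 ≤ p) [Group.IsNilpotent G] {d : ℕ} (hd2 : d + 4 ≤ 2 * p)
    (h : itc (⊤ : Subgroup G) ⊤ (d + 1) ≤ pw p ⁅(⊤ : Subgroup G), (⊤ : Subgroup G)⁆) :
    ∀ g ∈ pw p ⁅(⊤ : Subgroup G), (⊤ : Subgroup G)⁆, ∃ a ∈ ⁅(⊤ : Subgroup G), (⊤ : Subgroup G)⁆,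
      a ^ p = g := by
  set K := ⁅(⊤ : Subgroup G), (⊤ : Subgroup G)⁆ with hK
  have hpot : itc (⊤ : Subgroup K) ⊤ (p - 2) ≤ pw p ⊤ := by
    rw [← Subgroup.map_le_map_iff_of_injective K.subtype_injective, map_itc, map_pw,
      ← MonoidHom.range_eq_map, K.range_subtype]
    refine le_trans (itc_comm_self (p - 2)) (le_trans (itc_antitone ⊤ ?_) h)
    omega
  intro g hg
  have hg2 : g ∈ (pw p (⊤ : Subgroup K)).map K.subtype := by
    rw [map_pw, ← MonoidHom.range_eq_map, K.range_subtype]; exact hg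
  obtain ⟨z, hz, rfl⟩ := hg2
  obtain ⟨c, rfl⟩ := potent_pow hp hp3 K hpot z hz
  exact ⟨c, c.2, by simp⟩

/-- elements commuting with `EE j` modulo `EE (j+2)` -/
def BB (p : ℕ) (G : Type*) [Group G] (j : ℕ) : Subgroup G :=
  ⨅ a : EE p G j, centMod (EE p G (j + 2)) (a : G)

omit [Finite G] in
theorem mem_BB {j : ℕ} {w : G} : w ∈ BB p G j ↔ ∀ a ∈ EE p G j, ⁅w, a⁆ ∈ EE p G (j + 2) := by
  unfold BB
  rw [mem_iInf]
  constructor
  · intro h a ha; exact mem_centMod.1 (h ⟨a, ha⟩)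
  · intro h a; exact mem_centMod.2 (h a.1 a.2)

omit [Finite G] in
theorem pow_mem_BB (j : ℕ) (w : G) : w ^ p ∈ BB p G j := by
  rw [mem_BB]
  intro a ha
  let f := QuotientGroup.mk' (EE p G (j + 2))
  have hwa : ⁅w, a⁆ ∈ EE p G (j + 1) := by
    apply comm_mem_symm
    exact EE_comm p j (commutator_mem_commutator ha (mem_top w))
  have hcen : ∀ z, f z * f ⁅w, a⁆ = f ⁅w, a⁆ * f z := by
    intro z
    have h1 : ⁅⁅w, a⁆, z⁆ ∈ EE p G (j + 2) := EE_comm p (j + 1) (commutator_mem_commutator hwa (mem_top z))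
    have h2 : f ⁅⁅w, a⁆, z⁆ = 1 := by
      rw [← MonoidHom.mem_ker, QuotientGroup.ker_mk']; exact h1
    rw [map_commutatorElement, commutatorElement_eq_one_iff_mul_comm] at h2
    exact h2.symm
  have hk : ∀ k : ℕ, f ⁅w ^ k, a⁆ = (f ⁅w, a⁆) ^ k := by
    intro k
    induction k with
    | zero => rw [pow_zero, commutatorElement_one_left, map_one, pow_zero]
    | succ k ih =>
      rw [pow_succ', commutatorElement_mul_left_eq_conj_mul, map_mul, map_mul, map_mul, ih, map_inv]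
      have hc : Commute (f w) ((f ⁅w, a⁆) ^ k) := Commute.pow_right (hcen w) k
      rw [hc.eq, mul_inv_cancel_right, pow_succ]
  have h3 : f ⁅w ^ p, a⁆ = 1 := by
    rw [hk p, ← map_pow, ← MonoidHom.mem_ker, QuotientGroup.ker_mk']
    exact pw_le_EE p _ (pow_mem_pw p (commutator_mem_commutator (mem_top w) (mem_top a)))
  rw [← MonoidHom.mem_ker, QuotientGroup.ker_mk'] at h3
  exact h3

omit [Finite G] in
theorem BB_unique (hp : p.Prime) {x y : G} (hxy : closure {x, y} = (⊤ : Subgroup G)) {j : ℕ}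
    (h : ¬ EE p G (j + 1) ≤ EE p G (j + 2)) {s t : ℕ} (hst : s < t) (htp : t < p)
    (hs : x * y ^ s ∈ BB p G j) (ht : x * y ^ t ∈ BB p G j) : False := by
  have h1 : y ^ (t - s) ∈ BB p G j := by
    have h2 := (BB p G j).mul_mem ((BB p G j).inv_mem hs) ht
    have h3 : (x * y ^ s)⁻¹ * (x * y ^ t) = y ^ (t - s) := by
      obtain ⟨r, rfl⟩ : ∃ r, t = s + r := ⟨t - s, by omega⟩
      rw [pow_add, Nat.add_sub_cancel_left]
      group
    rwa [h3] at h2
  have hcop : Nat.Coprime (t - s) p := by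
    rw [Nat.coprime_comm, hp.coprime_iff_not_dvd]
    intro h2
    have := Nat.le_of_dvd (by omega) h2
    omega
  have hy : y ∈ BB p G j := by
    have h4 : (1 : ℤ) = (t - s : ℕ) * Nat.gcdA (t - s) p + (p : ℤ) * Nat.gcdB (t - s) p := by
      rw [← Nat.gcd_eq_gcd_ab, hcop.gcd_eq_one, Nat.cast_one]
    have h5 : y = (y ^ (t - s)) ^ (Nat.gcdA (t - s) p) * (y ^ p) ^ (Nat.gcdB (t - s) p) := by
      rw [← zpow_natCast y (t - s), ← zpow_natCast y p, ← zpow_mul, ← zpow_mul, ← zpow_add, ← h4, zpow_one]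
    rw [h5]
    exact (BB p G j).mul_mem ((BB p G j).zpow_mem h1 _) ((BB p G j).zpow_mem (pow_mem_BB j y) _)
  have hx : x ∈ BB p G j := by
    have h6 := (BB p G j).mul_mem hs ((BB p G j).inv_mem ((BB p G j).pow_mem hy s))
    rwa [mul_inv_cancel_right] at h6
  have htop : (⊤ : Subgroup G) ≤ BB p G j := by
    rw [← hxy, closure_le]
    rintro z (rfl | hz)
    · exact hx
    · rw [Set.mem_singleton_iff] at hz; rw [hz]; exact hy
  apply h
  refine le_trans (EE_succ_le p j) (sup_le (pw_le_EE p _) ?_)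
  rw [commutator_le]
  intro a ha w hw
  exact comm_mem_symm (mem_BB.1 (htop hw) a ha)

theorem exists_w (hp : p.Prime) (hG : IsPGroup p G) [Group.IsNilpotent G] {x y : G}
    (hxy : closure {x, y} = (⊤ : Subgroup G))
    (h : ¬ itc (⊤ : Subgroup G) ⊤ (p - 1) ≤ pw p ⁅(⊤ : Subgroup G), (⊤ : Subgroup G)⁆) :
    ∃ w : G, p ^ (p - 2) ≤ (centMod (pw p ⁅(⊤ : Subgroup G), (⊤ : Subgroup G)⁆) w).relIndex
      ⁅(⊤ : Subgroup G), (⊤ : Subgroup G)⁆ := by
  have hp2 := hp.two_le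
  have h1 : ∀ j ≤ p - 2, ¬ EE p G j ≤ EE p G (j + 1) := by
    intro j hj h2
    apply h
    refine le_trans (?_ : _ ≤ EE p G (p - 2)) (le_trans (EE_antitone p hj) (EE_stop h2))
    have : p - 1 = p - 2 + 1 := by omega
    rw [this]
    exact le_sup_left
  -- choose w
  obtain ⟨w, hw⟩ : ∃ w : G, ∀ j < p - 2, w ∉ BB p G j := by
    by_contra hcon
    push Not at hcon
    choose f hf1 hf2 using fun t : Fin p => hcon (x * y ^ t.val)
    let F : Fin p → Fin (p - 2) := fun t => ⟨f t, hf1 t⟩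
    obtain ⟨s, t, hst, he⟩ := Fintype.exists_ne_map_eq_of_card_lt F (by simp; omega)
    have he' : f s = f t := congrArg Fin.val he
    rcases lt_or_gt_of_ne hst with h3 | h3
    · exact BB_unique hp hxy (h1 (f s + 1) (by have := hf1 s; omega)) (Fin.lt_def.1 h3) t.2 (hf2 s)
        (he' ▸ hf2 t)
    · exact BB_unique hp hxy (h1 (f t + 1) (by have := hf1 t; omega)) (Fin.lt_def.1 h3) s.2 (hf2 t)
        (he' ▸ hf2 s)
  refine ⟨w, ?_⟩
  set K := ⁅(⊤ : Subgroup G), (⊤ : Subgroup G)⁆ with hK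
  set C := centMod (pw p K) w with hC
  let D : ℕ → Subgroup G := fun j => (C ⊓ K) ⊔ EE p G j
  obtain ⟨h4, h5⟩ := chain_le hp hG D (p - 2) (fun j _ => sup_le_sup_left (EE_antitone p (by omega)) _) (by
    intro j hj hle
    have h6 := hw j hj
    rw [mem_BB] at h6
    push Not at h6
    obtain ⟨a, ha, ha'⟩ := h6
    apply ha'
    have h7 : D (j + 1) ≤ centMod (EE p G (j + 2)) w := by
      refine sup_le (le_trans inf_le_left (centMod_mono (pw_le_EE p _) w)) ?_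
      exact le_centMod (EE_comm p (j + 1))
    have h8 : a ∈ centMod (EE p G (j + 2)) w := h7 (hle (mem_sup_right ha))
    exact comm_mem_symm (mem_centMod.1 h8))
  have hD0 : D 0 = K := by
    change (C ⊓ K) ⊔ EE p G 0 = K
    rw [EE_zero]; exact sup_eq_right.2 inf_le_right
  rw [hD0] at h5
  refine le_trans h5 ?_
  rw [← inf_relIndex_right C K]
  exact relIndex_le_of_le_left le_sup_left (relIndex_ne _ _)

end chain

end Pool.Agent.Helper43Reg
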