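import Mathlib
import Pool.Agent.Helper24_Reg.Basic

/-! The powers of the radical of the Iwahori order, as explicit entrywise divisibility conditions. -/

namespace Pool.Agent.Helper43Reg

open Matrix

/-- the exponent of the entry `(i, j)` in the `s`-th power of the radical -/
def ve (n s : ℕ) (i j : Fin n) : ℕ := (s + i.val + (n - 1 - j.val)) / n

theorem ve_add (n s t : ℕ) (i j k : Fin n) : ve n (s + t) i j ≤ ve n s i k + ve n t k j := by
  unfold ve
  have hn : 0 < n := lt_of_le_of_lt (Nat.zero_le _) i.2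
  have hi := i.2
  have hj := j.2
  have hk := k.2
  generalize i.val = a at *
  generalize j.val = b at *
  generalize k.val = c at *
  apply Nat.le_of_lt_succ
  rw [Nat.succ_eq_add_one, Nat.div_lt_iff_lt_mul hn]
  have h1 := Nat.div_add_mod (s + a + (n - 1 - c)) n
  have h2 := Nat.mod_lt (s + a + (n - 1 - c)) hn
  have h3 := Nat.div_add_mod (t + c + (n - 1 - b)) n
  have h4 := Nat.mod_lt (t + c + (n - 1 - b)) hn
  set q1 := (s + a + (n - 1 - c)) / n
  set q2 := (t + c + (n - 1 - b)) / n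
  set r1 := (s + a + (n - 1 - c)) % n
  set r2 := (t + c + (n - 1 - b)) % n
  have h5 : (q1 + q2 + 1) * n = n * q1 + n * q2 + n := by ring
  rw [h5]
  omega

theorem ve_mono (n : ℕ) {s t : ℕ} (h : s ≤ t) (i j : Fin n) : ve n s i j ≤ ve n t i j := by
  unfold ve
  exact Nat.div_le_div_right (by omega)

theorem ve_succ (n s : ℕ) (i j : Fin n) : ve n (s + n) i j = ve n s i j + 1 := by
  unfold ve
  have hn : 0 < n := lt_of_le_of_lt (Nat.zero_le _) i.2
  rw [show s + n + i.val + (n - 1 - j.val) = s + i.val + (n - 1 - j.val) + n by omega,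
    Nat.add_div_right _ hn]

theorem ve_zero (n : ℕ) (i : Fin n) : ve n 0 i i = 0 := by
  unfold ve
  have hn := i.2
  apply Nat.div_eq_of_lt
  omega

theorem ve_one_lt (n : ℕ) {i j : Fin n} (h : i < j) : ve n 1 i j = 0 := by
  unfold ve
  have h1 : i.val < j.val := h
  have hn := j.2
  apply Nat.div_eq_of_lt
  omega

theorem ve_one_ge (n : ℕ) {i j : Fin n} (h : j ≤ i) : ve n 1 i j = 1 := by
  unfold ve
  have h1 : j.val ≤ i.val := h
  have hn := i.2
  rw [Nat.div_eq_iff (by omega)]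
  omega

theorem ve_le (n s m : ℕ) (i j : Fin n) (h : s ≤ 1 + m * n) : ve n s i j ≤ m + 1 := by
  unfold ve
  have hi := i.2
  apply Nat.le_of_lt_succ
  rw [Nat.succ_eq_add_one, Nat.div_lt_iff_lt_mul (by omega)]
  have : (m + 1 + 1) * n = m * n + n + n := by ring
  omega

theorem le_ve (n s m : ℕ) (i j : Fin n) (h : m * n ≤ s) : m ≤ ve n s i j := by
  unfold ve
  have hi := i.2
  rw [Nat.le_div_iff_mul_le (by omega)]
  omega

section filt
variable {R : Type*} [CommRing R]

/-- `J ϖ n s`: the `s`-th power of the radical of the Iwahori order -/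
def J (ϖ : R) (n s : ℕ) : AddSubgroup (Matrix (Fin n) (Fin n) R) where
  carrier := {A | ∀ i j, ϖ ^ ve n s i j ∣ A i j}
  add_mem' := fun ha hb i j => dvd_add (ha i j) (hb i j)
  zero_mem' := fun _ _ => dvd_zero _
  neg_mem' := fun ha i j => (dvd_neg (α := R)).2 (ha i j)

theorem mem_J {ϖ : R} {n s : ℕ} {A : Matrix (Fin n) (Fin n) R} :
    A ∈ J ϖ n s ↔ ∀ i j, ϖ ^ ve n s i j ∣ A i j := Iff.rfl

variable {ϖ : R} {n : ℕ}

theorem J_mul {s t : ℕ} {A B : Matrix (Fin n) (Fin n) R} (hA : A ∈ J ϖ n s) (hB : B ∈ J ϖ n t) :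
    A * B ∈ J ϖ n (s + t) := by
  intro i j
  rw [Matrix.mul_apply]
  refine Finset.dvd_sum fun k _ => ?_
  refine dvd_trans (pow_dvd_pow ϖ (ve_add n s t i j k)) ?_
  rw [pow_add]
  exact mul_dvd_mul (hA i k) (hB k j)

theorem J_antitone : Antitone (J ϖ n) := fun _ _ hst _ hA i j =>
  dvd_trans (pow_dvd_pow ϖ (ve_mono n hst i j)) (hA i j)

theorem J_one : (1 : Matrix (Fin n) (Fin n) R) ∈ J ϖ n 0 := by
  intro i j
  by_cases h : i = j
  · subst h; rw [ve_zero, pow_zero]; exact one_dvd _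
  · rw [Matrix.one_apply_ne h]; exact dvd_zero _

theorem J_smul {s : ℕ} {A : Matrix (Fin n) (Fin n) R} (hA : A ∈ J ϖ n s) : ϖ • A ∈ J ϖ n (s + n) := by
  intro i j
  rw [ve_succ, Matrix.smul_apply, smul_eq_mul, pow_succ']
  exact mul_dvd_mul_left _ (hA i j)

theorem J_of_smul [IsDomain R] (h0 : ϖ ≠ 0) {s : ℕ} {A : Matrix (Fin n) (Fin n) R}
    (hA : ϖ • A ∈ J ϖ n (s + n)) : A ∈ J ϖ n s := by
  intro i j
  have := hA i j
  rw [ve_succ, Matrix.smul_apply, smul_eq_mul, pow_succ'] at this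
  exact (mul_dvd_mul_iff_left h0).1 this

theorem smul_mem_J_one (A : Matrix (Fin n) (Fin n) R) : ϖ • A ∈ J ϖ n 1 := by
  intro i j
  rcases lt_or_ge i j with h | h
  · rw [ve_one_lt n h, pow_zero]; exact one_dvd _
  · rw [ve_one_ge n h, pow_one, Matrix.smul_apply, smul_eq_mul]; exact dvd_mul_right _ _

theorem smul_int_mem {s : ℕ} {A : Matrix (Fin n) (Fin n) R} (hA : A ∈ J ϖ n s) (r : R) :
    r • A ∈ J ϖ n s := by
  intro i j
  rw [Matrix.smul_apply, smul_eq_mul]
  exact Dvd.dvd.mul_left (hA i j) _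

theorem pcond_iff {A : Matrix (Fin n) (Fin n) R} :
    Pool.Agent.Helper24Reg.PCond ϖ A ↔ A - 1 ∈ J ϖ n 1 := by
  constructor
  · rintro ⟨h1, h2⟩ i j
    rcases lt_trichotomy i j with h | h | h
    · rw [ve_one_lt n h, pow_zero]; exact one_dvd _
    · subst h
      rw [ve_one_ge n le_rfl, pow_one, Matrix.sub_apply, Matrix.one_apply_eq]
      exact h1 i
    · rw [ve_one_ge n h.le, pow_one, Matrix.sub_apply, Matrix.one_apply_ne h.ne', sub_zero]
      exact h2 i j h
  · intro h
    refine ⟨fun i => ?_, fun i j hij => ?_⟩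
    · have := h i i
      rwa [ve_one_ge n le_rfl, pow_one, Matrix.sub_apply, Matrix.one_apply_eq] at this
    · have := h i j
      rwa [ve_one_ge n hij.le, pow_one, Matrix.sub_apply, Matrix.one_apply_ne hij.ne', sub_zero] at this

theorem J_pow {A : Matrix (Fin n) (Fin n) R} (hA : A ∈ J ϖ n 1) (m : ℕ) : A ^ m ∈ J ϖ n m := by
  induction m with
  | zero => rw [pow_zero]; exact J_one
  | succ m ih => rw [pow_succ]; exact J_mul ih hA

theorem J_pow_sub {A B : Matrix (Fin n) (Fin n) R} (hA : A ∈ J ϖ n 1) (hB : B ∈ J ϖ n 1) {s : ℕ}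
    (h : B - A ∈ J ϖ n s) (m : ℕ) : B ^ (m + 1) - A ^ (m + 1) ∈ J ϖ n (s + m) := by
  induction m with
  | zero => simpa using h
  | succ m ih =>
    have e : B ^ (m + 1 + 1) - A ^ (m + 1 + 1) = B ^ (m + 1) * (B - A) + (B ^ (m + 1) - A ^ (m + 1)) * A := by
      rw [pow_succ B (m + 1), pow_succ A (m + 1)]; noncomm_ring
    rw [e]
    refine (J ϖ n _).add_mem ?_ ?_
    · rw [show s + (m + 1) = m + 1 + s by omega]
      exact J_mul (J_pow hB _) h
    · rw [← add_assoc]; exact J_mul ih hA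

/-- the `p`-th power map modulo higher terms -/
theorem J_pth {p : ℕ} (hp : p.Prime) (hpn : n + 2 ≤ p) {A B : Matrix (Fin n) (Fin n) R}
    (hA : A ∈ J (p : R) n 1) (hB : B ∈ J (p : R) n 1) {s : ℕ} (h : B - A ∈ J (p : R) n s) :
    (B + 1) ^ p - (A + 1) ^ p - (p : R) • (B - A) ∈ J (p : R) n (s + n + 1) := by
  have h2 := hp.two_le
  rw [(Commute.one_right B).add_pow, (Commute.one_right A).add_pow, ← Finset.sum_sub_distrib]
  have e1 : ∀ m ∈ Finset.range (p + 1), (B ^ m * 1 ^ (p - m) * (p.choose m : Matrix (Fin n) (Fin n) R) -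
      A ^ m * 1 ^ (p - m) * (p.choose m : Matrix (Fin n) (Fin n) R)) = ((p.choose m : ℕ) : R) • (B ^ m - A ^ m) := by
    intro m _
    rw [one_pow, mul_one, mul_one, ← sub_mul, ← nsmul_eq_mul', ← Nat.cast_smul_eq_nsmul R]
  rw [Finset.sum_congr rfl e1]
  have h1m : 1 ∈ Finset.range (p + 1) := Finset.mem_range.2 (by omega)
  rw [← Finset.add_sum_erase _ _ h1m, Nat.choose_one_right, pow_one, pow_one, add_sub_cancel_left]
  refine (J (p : R) n _).sum_mem fun m hm => ?_
  rw [Finset.mem_erase, Finset.mem_range] at hm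
  obtain ⟨hm1, hm2⟩ := hm
  rcases Nat.eq_zero_or_pos m with rfl | hm0
  · rw [pow_zero, pow_zero, sub_self, smul_zero]; exact (J (p : R) n _).zero_mem
  obtain ⟨r, rfl⟩ : ∃ r, m = r + 1 := ⟨m - 1, by omega⟩
  have h3 := J_pow_sub hA hB h r
  rcases Nat.lt_or_ge (r + 1) p with h4 | h4
  · obtain ⟨c, hc⟩ : p ∣ p.choose (r + 1) := hp.dvd_choose_self (by omega) h4
    rw [hc, Nat.cast_mul, mul_smul, show s + n + 1 = s + 1 + n by omega]
    exact J_smul (smul_int_mem (J_antitone (show s + 1 ≤ s + r by omega) h3) _)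
  · have h5 : r + 1 = p := by omega
    rw [h5, Nat.choose_self, Nat.cast_one, one_smul]
    rw [h5] at h3
    exact J_antitone (show s + n + 1 ≤ s + r by omega) h3

/-- the power map on `1 + J` is injective modulo the filtration -/
theorem J_iso [IsDomain R] {p : ℕ} (hp : p.Prime) (hp0 : (p : R) ≠ 0) (hpn : n + 2 ≤ p)
    {A B : Matrix (Fin n) (Fin n) R}
    (hA : A - 1 ∈ J (p : R) n 1) (hB : B - 1 ∈ J (p : R) n 1) {s : ℕ} (hs : 1 ≤ s) :
    B ^ p - A ^ p ∈ J (p : R) n (s + n) ↔ B - A ∈ J (p : R) n s := by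
  have key : ∀ t, B - A ∈ J (p : R) n t → B ^ p - A ^ p - (p : R) • (B - A) ∈ J (p : R) n (t + n + 1) := by
    intro t ht
    have h1 := J_pth hp hpn hA hB (s := t) (by rw [sub_sub_sub_cancel_right]; exact ht)
    rwa [sub_add_cancel, sub_add_cancel, sub_sub_sub_cancel_right] at h1
  constructor
  · intro h
    have h0 : ∀ t, t ≤ s - 1 → B - A ∈ J (p : R) n (t + 1) := by
      intro t
      induction t with
      | zero =>
        intro _
        have := (J (p : R) n 1).sub_mem hB hA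
        rwa [sub_sub_sub_cancel_right] at this
      | succ t ih =>
        intro ht
        have h1 := key _ (ih (by omega))
        have h2 : B ^ p - A ^ p ∈ J (p : R) n (t + 1 + n + 1) := J_antitone (by omega) h
        have h3 := (J (p : R) n _).sub_mem h2 h1
        rw [sub_sub_cancel, show t + 1 + n + 1 = t + 1 + 1 + n by omega] at h3
        exact J_of_smul hp0 h3
    have := h0 (s - 1) le_rfl
    rwa [show s - 1 + 1 = s by omega] at this
  · intro h
    have h1 := key s h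
    have h2 := (J (p : R) n _).add_mem (J_antitone (show s + n ≤ s + n + 1 by omega) h1) (J_smul h)
    rwa [sub_add_cancel] at h2

end filt

end Pool.Agent.Helper43Reg
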