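import Mathlib
import Pool.Agent.Helper43_Reg.Chain
import Pool.Agent.Helper24_Reg.Basic

/-! From the finite levels to a regularity statement for groups with a `p`-uniform type filtration. -/

namespace Pool.Agent.Helper43Reg

open scoped commutatorElement
open Subgroup Pool.Agent.Helper24Reg

/-- A group with a filtration by normal subgroups on which the `p`-th power map is injective of
degree `n` (`iso`), with layers of `n` steps of size at most `p^d` (`idx`), and in which conjugacy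
classes grow at most like `p^(e i)` (`cls`). -/
structure Sys (p n d e : ℕ) {G : Type*} [Group G] (Gs : ℕ → Subgroup G) [∀ s, (Gs s).Normal] : Prop where
  anti : Antitone Gs
  one : Gs 1 = ⊤
  iso : ∀ s, 1 ≤ s → ∀ a b : G, (a ^ p)⁻¹ * b ^ p ∈ Gs (s + n) ↔ a⁻¹ * b ∈ Gs s
  idx : ∀ s, 1 ≤ s → (Gs (s + n)).relIndex (Gs s) ≠ 0 ∧ (Gs (s + n)).relIndex (Gs s) ≤ p ^ d
  cls : ∃ c, ∀ (w : G) (i : ℕ), (centMod (Gs (1 + i * n)) w).index ≤ p ^ (e * i + c)

/-- the index of the centraliser of `w` modulo `Gs s` in the derived group -/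
noncomputable def kap {G : Type*} [Group G] (Gs : ℕ → Subgroup G) [∀ s, (Gs s).Normal] (w : G) (s : ℕ) : ℕ :=
  (centMod (Gs s) w).relIndex ⁅(⊤ : Subgroup G), (⊤ : Subgroup G)⁆

section
variable {p n d e : ℕ} {G : Type*} [Group G] {Gs : ℕ → Subgroup G} [∀ s, (Gs s).Normal]

theorem Sys.fin (S : Sys p n d e Gs) (hn : 1 ≤ n) (s : ℕ) : (Gs s).index ≠ 0 := by
  have h1 : ∀ i, (Gs (1 + i * n)).index ≠ 0 := by
    intro i
    induction i with
    | zero => rw [zero_mul, add_zero, S.one, index_top]; exact one_ne_zero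
    | succ i ih =>
      have h2 := (S.idx (1 + i * n) (by omega)).1
      rw [← relIndex_top_right] at ih ⊢
      rw [show 1 + (i + 1) * n = 1 + i * n + n by ring]
      exact relIndex_ne_zero_trans h2 ih
  have h3 : s ≤ 1 + s * n := by nlinarith
  intro h4
  apply h1 s
  have := index_dvd_of_le (S.anti h3)
  rw [h4] at this
  exact Nat.eq_zero_of_zero_dvd this

theorem centMod_index_ne (S : Sys p n d e Gs) (hn : 1 ≤ n) (w : G) (s : ℕ) :
    (centMod (Gs s) w).index ≠ 0 := by
  intro h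
  apply S.fin hn s
  have h1 : Gs s ≤ centMod (Gs s) w := le_centMod (commutator_le_left _ _)
  have := index_dvd_of_le h1
  rw [h] at this
  exact Nat.eq_zero_of_zero_dvd this

theorem kap_ne (S : Sys p n d e Gs) (hn : 1 ≤ n) (w : G) (s : ℕ) : kap Gs w s ≠ 0 := by
  intro h
  exact centMod_index_ne S hn w s (index_eq_zero_of_relIndex_eq_zero h)

theorem kap_mono (S : Sys p n d e Gs) (hn : 1 ≤ n) (w : G) {s t : ℕ} (hst : s ≤ t) :
    kap Gs w s ≤ kap Gs w t :=
  relIndex_le_of_le_left (centMod_mono (S.anti hst) w) (kap_ne S hn w t)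

theorem kap_le_index (S : Sys p n d e Gs) (hn : 1 ≤ n) (w : G) (s : ℕ) :
    kap Gs w s ≤ (centMod (Gs s) w).index := by
  rw [← relIndex_top_right]
  exact relIndex_le_of_le_right le_top (by rw [relIndex_top_right]; exact centMod_index_ne S hn w s)

theorem Sys.restrict (S : Sys p n d e Gs) (hn : 1 ≤ n) (H : Subgroup G) :
    Sys p n d e (fun s => (Gs s).subgroupOf H) where
  anti := fun s t hst => Subgroup.comap_mono (S.anti hst)
  one := by rw [S.one]; exact Subgroup.top_subgroupOf H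
  iso := by
    intro s hs a b
    simp only [mem_subgroupOf]
    exact S.iso s hs a b
  idx := by
    intro s hs
    have h1 : ((Gs (s + n)).subgroupOf H).relIndex ((Gs s).subgroupOf H) = (Gs (s + n)).relIndex (Gs s ⊓ H) := by
      change ((Gs (s + n)).comap H.subtype).relIndex ((Gs s).subgroupOf H) = _
      rw [relIndex_comap, subgroupOf_map_subtype]
    obtain ⟨h2, h3⟩ := S.idx s hs
    rw [h1]
    refine ⟨fun h4 => h2 (relIndex_eq_zero_of_le_right inf_le_left h4), ?_⟩
    exact le_trans (relIndex_le_of_le_right inf_le_left h2) h3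
  cls := by
    obtain ⟨c, hc⟩ := S.cls
    refine ⟨c, fun w i => ?_⟩
    have h1 : centMod ((Gs (1 + i * n)).subgroupOf H) w = (centMod (Gs (1 + i * n)) (w : G)).subgroupOf H := by
      ext g
      rw [mem_centMod, mem_subgroupOf, mem_subgroupOf, mem_centMod]
      rfl
    rw [h1]
    refine le_trans ?_ (hc w i)
    rw [← relIndex_top_right (centMod (Gs (1 + i * n)) (w : G))]
    exact relIndex_le_of_le_right le_top (by rw [relIndex_top_right]; exact centMod_index_ne S hn _ _)

theorem mem_map_mk {M : Subgroup G} [M.Normal] {H : Subgroup G} (h : M ≤ H) (g : G) :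
    QuotientGroup.mk' M g ∈ H.map (QuotientGroup.mk' M) ↔ g ∈ H := by
  have : (H.map (QuotientGroup.mk' M)).comap (QuotientGroup.mk' M) = H :=
    comap_map_eq_self (by rw [QuotientGroup.ker_mk']; exact h)
  rw [← mem_comap, this]

theorem level (S : Sys p n d e Gs) (hp : p.Prime) (hp3 : 3 ≤ p) (hn : 1 ≤ n) (hd : d + 4 ≤ 2 * p)
    {x y : G} (hxy : closure {x, y} = (⊤ : Subgroup G)) (M : ℕ) (hM : 2 * n + 1 ≤ M) :
    (∀ w, kap Gs w (M - n) * kap Gs w (M - n) ≤ kap Gs w M * kap Gs w (M - 2 * n)) ∧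
    (RegPair p (QuotientGroup.mk' (Gs M) x) (QuotientGroup.mk' (Gs M) y) ∨
      ∃ w, p ^ (p - 2) * kap Gs w (M - n) ≤ kap Gs w M) := by
  have : Fact p.Prime := ⟨hp⟩
  let f := QuotientGroup.mk' (Gs M)
  have hf : Function.Surjective f := QuotientGroup.mk'_surjective _
  have hker : f.ker = Gs M := QuotientGroup.ker_mk' _
  have hfi : (Gs M).FiniteIndex := ⟨S.fin hn M⟩
  have hfin : Finite (G ⧸ Gs M) := finite_quotient_of_finiteIndex
  have h1 : M - n + n = M := by omega
  have h2 : M - 2 * n + n = M - n := by omega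
  have hpG : IsPGroup p (G ⧸ Gs M) := by
    have h3 : ∀ (k : ℕ) (g : G), g ^ (p ^ k) ∈ Gs (1 + k * n) := by
      intro k
      induction k with
      | zero => intro g; rw [zero_mul, add_zero, S.one]; exact mem_top _
      | succ k ih =>
        intro g
        have h4 := (S.iso (1 + k * n) (by omega) 1 (g ^ (p ^ k))).2 (by simpa using ih g)
        rw [one_pow, inv_one, one_mul, ← pow_mul, ← pow_succ] at h4
        rw [show 1 + (k + 1) * n = 1 + k * n + n by ring]
        exact h4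
    intro g
    obtain ⟨g, rfl⟩ := hf g
    refine ⟨M, ?_⟩
    rw [← map_pow, ← MonoidHom.mem_ker, hker]
    exact S.anti (show M ≤ 1 + M * n by nlinarith) (h3 M g)
  have hnil : Group.IsNilpotent (G ⧸ Gs M) := hpG.isNilpotent
  have hΩn : ((Gs (M - n)).map f).Normal := Normal.map inferInstance f hf
  have hΩ₂n : ((Gs (M - 2 * n)).map f).Normal := Normal.map inferInstance f hf
  have hΩ : ∀ a b : G ⧸ Gs M, a ^ p = b ^ p ↔ a⁻¹ * b ∈ (Gs (M - n)).map f := by
    intro a b
    obtain ⟨a, rfl⟩ := hf a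
    obtain ⟨b, rfl⟩ := hf b
    rw [← map_pow, ← map_pow, ← map_inv, ← map_mul, mem_map_mk (S.anti (by omega)), ← S.iso _ (by omega), h1]
    exact QuotientGroup.eq
  have hΩ₂ : ∀ a b : G ⧸ Gs M, (a ^ p)⁻¹ * b ^ p ∈ (Gs (M - n)).map f ↔ a⁻¹ * b ∈ (Gs (M - 2 * n)).map f := by
    intro a b
    obtain ⟨a, rfl⟩ := hf a
    obtain ⟨b, rfl⟩ := hf b
    rw [← map_pow, ← map_pow, ← map_inv, ← map_mul, mem_map_mk (S.anti (by omega)), ← map_inv, ← map_mul,
      mem_map_mk (S.anti (by omega)), ← S.iso (M - 2 * n) (by omega) a b, h2]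
  have hcard : Nat.card ((Gs (M - n)).map f) ≤ p ^ d := by
    rw [← relIndex_ker, hker]
    have := (S.idx (M - n) (by omega)).2
    rwa [h1] at this
  have hK : (⁅(⊤ : Subgroup (G ⧸ Gs M)), (⊤ : Subgroup (G ⧸ Gs M))⁆) = ⁅(⊤ : Subgroup G), (⊤ : Subgroup G)⁆.map f := by
    rw [Subgroup.map_commutator, map_top_of_surjective f hf]
  have htr : ∀ (X : Subgroup (G ⧸ Gs M)) [X.Normal] (s : ℕ) (w : G), (∀ g, f g ∈ X ↔ g ∈ Gs s) →
      (centMod X (f w)).relIndex ⁅(⊤ : Subgroup (G ⧸ Gs M)), (⊤ : Subgroup (G ⧸ Gs M))⁆ = kap Gs w s := by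
    intro X _ s w hX
    rw [hK, ← relIndex_comap]
    unfold kap
    congr 1
    ext g
    rw [mem_comap, mem_centMod, mem_centMod, ← map_commutatorElement, hX]
  have ht0 : ∀ g, f g ∈ (⊥ : Subgroup (G ⧸ Gs M)) ↔ g ∈ Gs M := by
    intro g; rw [mem_bot, ← MonoidHom.mem_ker, hker]
  have ht1 : ∀ g, f g ∈ (Gs (M - n)).map f ↔ g ∈ Gs (M - n) := fun g => mem_map_mk (S.anti (by omega)) g
  have ht2 : ∀ g, f g ∈ (Gs (M - 2 * n)).map f ↔ g ∈ Gs (M - 2 * n) := fun g => mem_map_mk (S.anti (by omega)) g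
  have hlcs := lcs_le_pw hp hpG hΩ hcard
  have hKp := K_pow hp hp3 hd hlcs
  refine ⟨fun w => ?_, ?_⟩
  · have := stepG hΩ hΩ₂ hKp (f w)
    rwa [htr _ _ w ht1, htr _ _ w ht0, htr _ _ w ht2] at this
  · have hcl : closure {f x, f y} = (⊤ : Subgroup (G ⧸ Gs M)) := by
      have h5 : ({f x, f y} : Set (G ⧸ Gs M)) = f '' {x, y} := (Set.image_pair f x y).symm
      rw [h5, ← MonoidHom.map_closure, hxy, map_top_of_surjective f hf]
    by_cases hc : itc (⊤ : Subgroup (G ⧸ Gs M)) ⊤ (p - 1) ≤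
        pw p ⁅(⊤ : Subgroup (G ⧸ Gs M)), (⊤ : Subgroup (G ⧸ Gs M))⁆
    · left
      obtain ⟨u, hu, he⟩ := hall_mod hp le_rfl hc (f x) (f y)
      obtain ⟨c, hc, rfl⟩ := hKp u hu
      refine ⟨[c], ?_, ?_⟩
      · intro z hz
        rw [List.mem_singleton] at hz
        rw [hz]
        change c ∈ ⁅closure {f x, f y}, closure {f x, f y}⁆
        rw [hcl]; exact hc
      · rw [List.map_singleton, List.prod_singleton]; exact he
    · right
      obtain ⟨w, hw⟩ := exists_w hp hpG hcl hc
      obtain ⟨w, rfl⟩ := hf w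
      refine ⟨w, ?_⟩
      have h6 := stepF hΩ hKp (f w)
      rw [htr _ _ w ht1, htr _ _ w ht0] at h6
      exact le_trans (Nat.mul_le_mul_right _ hw) h6

/-- The main abstract theorem. -/
theorem Sys.regular (S : Sys p n d e Gs) (hp : p.Prime) (hp3 : 3 ≤ p) (hn : 1 ≤ n) (hd : d + 4 ≤ 2 * p)
    (he : e + 3 ≤ p) {x y : G} (hxy : closure {x, y} = (⊤ : Subgroup G)) (M : ℕ) (hM : 2 * n + 1 ≤ M) :
    RegPair p (QuotientGroup.mk' (Gs M) x) (QuotientGroup.mk' (Gs M) y) := by
  rcases (level S hp hp3 hn hd hxy M hM).2 with h | ⟨w, hw⟩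
  · exact h
  exfalso
  set q := p ^ (p - 2) with hq
  have h1 : ∀ j, q * kap Gs w (M + j * n - n) ≤ kap Gs w (M + j * n) := by
    intro j
    induction j with
    | zero => rw [zero_mul, add_zero]; exact hw
    | succ j ih =>
      have h2 := (level S hp hp3 hn hd hxy (M + (j + 1) * n) (by nlinarith)).1 w
      have e1 : M + (j + 1) * n - n = M + j * n := by
        have : (j + 1) * n = j * n + n := by ring
        omega
      have e2 : M + (j + 1) * n - 2 * n = M + j * n - n := by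
        have : (j + 1) * n = j * n + n := by ring
        omega
      rw [e1, e2] at h2
      rw [e1]
      have h3 : 0 < kap Gs w (M + j * n - n) := Nat.pos_of_ne_zero (kap_ne S hn w _)
      refine Nat.le_of_mul_le_mul_right ?_ h3
      calc q * kap Gs w (M + j * n) * kap Gs w (M + j * n - n)
          = (q * kap Gs w (M + j * n - n)) * kap Gs w (M + j * n) := by ring
        _ ≤ kap Gs w (M + j * n) * kap Gs w (M + j * n) := Nat.mul_le_mul_right _ ih
        _ ≤ _ := h2
  have h2 : ∀ j, q ^ j ≤ kap Gs w (M + j * n) := by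
    intro j
    induction j with
    | zero => rw [pow_zero]; exact Nat.pos_of_ne_zero (kap_ne S hn w _)
    | succ j ih =>
      have h3 := h1 (j + 1)
      have e1 : M + (j + 1) * n - n = M + j * n := by
        have : (j + 1) * n = j * n + n := by ring
        omega
      rw [e1] at h3
      rw [pow_succ']
      exact le_trans (Nat.mul_le_mul_left _ ih) h3
  obtain ⟨c, hc⟩ := S.cls
  have h3 : ∀ j, q ^ j ≤ p ^ (e * (M + j) + c) := by
    intro j
    refine le_trans (h2 j) (le_trans (kap_mono S hn w (t := 1 + (M + j) * n) (by nlinarith)) ?_)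
    exact le_trans (kap_le_index S hn w _) (hc w _)
  have h4 := h3 (e * M + c + 1)
  rw [hq, ← pow_mul] at h4
  have h5 := (Nat.pow_le_pow_iff_right hp.one_lt).1 h4
  have h6 : e + 1 ≤ p - 2 := by omega
  have h7 : (e + 1) * (e * M + c + 1) ≤ (p - 2) * (e * M + c + 1) := Nat.mul_le_mul_right _ h6
  nlinarith

/-- regularity of arbitrary pairs modulo the filtration -/
theorem Sys.regPair (S : Sys p n d e Gs) (hp : p.Prime) (hp3 : 3 ≤ p) (hn : 1 ≤ n) (hd : d + 4 ≤ 2 * p)
    (he : e + 3 ≤ p) {K : Type*} [Group K] (f : G →* K) (M : ℕ) (hM : Gs M ≤ f.ker) (x y : G) :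
    RegPair p (f x) (f y) := by
  let H : Subgroup G := closure {x, y}
  let x' : H := ⟨x, subset_closure (by simp)⟩
  let y' : H := ⟨y, subset_closure (by simp)⟩
  have hcl : closure {x', y'} = (⊤ : Subgroup H) := by
    rw [← Subgroup.map_subtype_inj, MonoidHom.map_closure, Set.image_pair, ← MonoidHom.range_eq_map,
      range_subtype]
    rfl
  let M' := M + (2 * n + 1)
  have h1 := (S.restrict hn H).regular hp hp3 hn hd he hcl M' (by omega)
  have hle : (Gs M').subgroupOf H ≤ (f.comp H.subtype).ker := by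
    intro g hg
    rw [MonoidHom.mem_ker]
    exact hM (S.anti (show M ≤ M' by omega) hg)
  have h2 := RegPair.map (QuotientGroup.lift ((Gs M').subgroupOf H) (f.comp H.subtype) hle) h1
  exact h2

end

end Pool.Agent.Helper43Reg
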