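import Mathlib
import Pool.Agent.Helper43_Reg.Level
import Pool.Agent.Helper43_Reg.Filt
import Pool.Agent.Helper43_Reg.Cent
import Pool.Agent.Helper24_Reg.Basic

/-! The groups `P_n(ℤ/p^m)` are regular for all `m` when `p > n² - n + 1`. -/

namespace Pool.Agent.Helper43Reg

open Matrix Subgroup Pool.Agent.Helper24Reg
open scoped commutatorElement

section
variable (p n : ℕ) [hp : Fact p.Prime]

/-- reduction of invertible matrices modulo `p^m` -/
noncomputable def red (m : ℕ) : GL (Fin n) ℤ_[p] →* GL (Fin n) (ZMod (p ^ m)) :=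
  Matrix.GeneralLinearGroup.map (PadicInt.toZModPow m)

theorem red_apply (m : ℕ) (g : GL (Fin n) ℤ_[p]) : (red p n m g).1 = g.1.map (PadicInt.toZModPow m) := rfl

variable {p n}

theorem dvd_toZModPow {m : ℕ} (hm : 1 ≤ m) (z : ℤ_[p]) :
    (p : ZMod (p ^ m)) ∣ PadicInt.toZModPow m z ↔ (p : ℤ_[p]) ∣ z := by
  constructor
  · rintro ⟨w, hw⟩
    obtain ⟨w, rfl⟩ := ZMod.ringHom_surjective (PadicInt.toZModPow (p := p) m) w
    have h1 : PadicInt.toZModPow m (z - (p : ℤ_[p]) * w) = 0 := by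
      rw [map_sub, hw, map_mul, map_natCast, sub_self]
    rw [← RingHom.mem_ker, PadicInt.ker_toZModPow, Ideal.mem_span_singleton] at h1
    have h2 : (p : ℤ_[p]) ∣ z - (p : ℤ_[p]) * w := dvd_trans (dvd_pow_self _ (by omega)) h1
    have h3 := dvd_add h2 (dvd_mul_right (p : ℤ_[p]) w)
    rwa [sub_add_cancel] at h3
  · intro h
    have := map_dvd (PadicInt.toZModPow (p := p) m) h
    rwa [map_natCast] at this

theorem pcond_map {m : ℕ} (hm : 1 ≤ m) (A : Matrix (Fin n) (Fin n) ℤ_[p]) :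
    PCond (p : ZMod (p ^ m)) (A.map (PadicInt.toZModPow m)) ↔ PCond (p : ℤ_[p]) A := by
  unfold PCond
  simp only [Matrix.map_apply]
  have h1 : ∀ i, PadicInt.toZModPow m (A i i) - 1 = PadicInt.toZModPow m (A i i - 1) := by
    intro i; rw [map_sub, map_one]
  simp only [h1, dvd_toZModPow hm]

theorem toZModPow_eq_zero_iff (m : ℕ) (z : ℤ_[p]) : PadicInt.toZModPow m z = 0 ↔ (p : ℤ_[p]) ^ m ∣ z := by
  rw [← RingHom.mem_ker, PadicInt.ker_toZModPow, Ideal.mem_span_singleton]

variable (p n) in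
/-- the group `1 + J` over the `p`-adic integers -/
noncomputable def G0 : Subgroup (GL (Fin n) ℤ_[p]) := (P p 1 n).comap (red p n 1)

theorem mem_G0 {g : GL (Fin n) ℤ_[p]} : g ∈ G0 p n ↔ g.1 - 1 ∈ J (p : ℤ_[p]) n 1 := by
  unfold G0
  rw [mem_comap, mem_P, red_apply, pcond_map le_rfl, pcond_iff]

theorem G0_J0 (g : G0 p n) : g.1.1 ∈ J (p : ℤ_[p]) n 0 := by
  have h1 := (J (p : ℤ_[p]) n 0).add_mem (J_antitone (Nat.zero_le 1) (mem_G0.1 g.2)) J_one
  rwa [sub_add_cancel] at h1

variable (p n) in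
/-- the filtration of `1 + J` -/
noncomputable def Gs (s : ℕ) : Subgroup (G0 p n) where
  carrier := {g | g.1.1 - 1 ∈ J (p : ℤ_[p]) n s}
  one_mem' := by
    change (1 : Matrix (Fin n) (Fin n) ℤ_[p]) - 1 ∈ J (p : ℤ_[p]) n s
    rw [sub_self]; exact (J _ _ _).zero_mem
  mul_mem' := by
    intro g h hg hh
    change g.1.1 * h.1.1 - 1 ∈ J (p : ℤ_[p]) n s
    have e : g.1.1 * h.1.1 - 1 = g.1.1 * (h.1.1 - 1) + (g.1.1 - 1) := by noncomm_ring
    rw [e]
    refine (J _ _ _).add_mem ?_ hg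
    have := J_mul (G0_J0 g) hh
    rwa [zero_add] at this
  inv_mem' := by
    intro g hg
    change (g⁻¹).1.1 - 1 ∈ J (p : ℤ_[p]) n s
    have e : (g⁻¹).1.1 - 1 = -((g⁻¹).1.1 * (g.1.1 - 1)) := by
      have h1 : (g⁻¹).1.1 * g.1.1 = 1 := by
        change ((g.1⁻¹ : GL (Fin n) ℤ_[p]) : Matrix (Fin n) (Fin n) ℤ_[p]) * (g.1 : Matrix (Fin n) (Fin n) ℤ_[p]) = 1
        rw [← Units.val_mul, inv_mul_cancel, Units.val_one]
      rw [mul_sub, h1, mul_one, neg_sub]
    rw [e]
    refine (J _ _ _).neg_mem ?_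
    have := J_mul (G0_J0 g⁻¹) hg
    rwa [zero_add] at this

theorem mem_Gs {s : ℕ} {g : G0 p n} : g ∈ Gs p n s ↔ g.1.1 - 1 ∈ J (p : ℤ_[p]) n s := Iff.rfl

theorem inv_mul_val (g : G0 p n) : (g⁻¹).1.1 * g.1.1 = 1 := by
  change ((g.1⁻¹ : GL (Fin n) ℤ_[p]) : Matrix (Fin n) (Fin n) ℤ_[p]) * (g.1 : Matrix (Fin n) (Fin n) ℤ_[p]) = 1
  rw [← Units.val_mul, inv_mul_cancel, Units.val_one]

theorem mul_inv_val (g : G0 p n) : g.1.1 * (g⁻¹).1.1 = 1 := by
  change (g.1 : Matrix (Fin n) (Fin n) ℤ_[p]) * ((g.1⁻¹ : GL (Fin n) ℤ_[p]) : Matrix (Fin n) (Fin n) ℤ_[p]) = 1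
  rw [← Units.val_mul, mul_inv_cancel, Units.val_one]

instance Gs_normal (s : ℕ) : (Gs p n s).Normal := by
  refine ⟨fun g hg h => ?_⟩
  rw [mem_Gs] at hg ⊢
  change h.1.1 * g.1.1 * (h⁻¹).1.1 - 1 ∈ _
  have e : h.1.1 * g.1.1 * (h⁻¹).1.1 - 1 = h.1.1 * (g.1.1 - 1) * (h⁻¹).1.1 := by
    rw [mul_sub, sub_mul, mul_one, mul_inv_val]
  rw [e]
  have := J_mul (J_mul (G0_J0 h) hg) (G0_J0 h⁻¹)
  rwa [zero_add, add_zero] at this

theorem inv_mul_mem_Gs {s : ℕ} {a b : G0 p n} : a⁻¹ * b ∈ Gs p n s ↔ b.1.1 - a.1.1 ∈ J (p : ℤ_[p]) n s := by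
  rw [mem_Gs]
  change (a⁻¹).1.1 * b.1.1 - 1 ∈ _ ↔ _
  constructor
  · intro h
    have h1 := J_mul (G0_J0 a) h
    rw [zero_add] at h1
    have e : a.1.1 * ((a⁻¹).1.1 * b.1.1 - 1) = b.1.1 - a.1.1 := by
      rw [mul_sub, ← mul_assoc, mul_inv_val, one_mul, mul_one]
    rwa [e] at h1
  · intro h
    have h1 := J_mul (G0_J0 a⁻¹) h
    rw [zero_add] at h1
    have e : (a⁻¹).1.1 * (b.1.1 - a.1.1) = (a⁻¹).1.1 * b.1.1 - 1 := by
      rw [mul_sub, inv_mul_val]
    rwa [e] at h1

theorem G0_iso (hpn : n + 2 ≤ p) (s : ℕ) (hs : 1 ≤ s) (a b : G0 p n) :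
    (a ^ p)⁻¹ * b ^ p ∈ Gs p n (s + n) ↔ a⁻¹ * b ∈ Gs p n s := by
  rw [inv_mul_mem_Gs, inv_mul_mem_Gs]
  exact J_iso hp.out (Nat.cast_ne_zero.2 hp.out.ne_zero) hpn (mem_G0.1 a.2) (mem_G0.1 b.2) hs

theorem G0_idx (s : ℕ) :
    (Gs p n (s + n)).relIndex (Gs p n s) ≠ 0 ∧ (Gs p n (s + n)).relIndex (Gs p n s) ≤ p ^ (n * n) := by
  classical
  have hne : NeZero p := ⟨hp.out.ne_zero⟩
  let f : G0 p n → (Fin n → Fin n → ZMod p) := fun g i j =>
    if h : (p : ℤ_[p]) ^ ve n s i j ∣ (g.1.1 - 1) i j then PadicInt.toZMod h.choose else 0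
  have hf : ∀ a ∈ Gs p n s, ∀ b ∈ Gs p n s, f a = f b → a⁻¹ * b ∈ Gs p n (s + n) := by
    intro a ha b hb hab
    rw [inv_mul_mem_Gs]
    intro i j
    have ha' : (p : ℤ_[p]) ^ ve n s i j ∣ (a.1.1 - 1) i j := mem_Gs.1 ha i j
    have hb' : (p : ℤ_[p]) ^ ve n s i j ∣ (b.1.1 - 1) i j := mem_Gs.1 hb i j
    have h1 := congrFun (congrFun hab i) j
    simp only [f, dif_pos ha', dif_pos hb'] at h1
    have h2 := ha'.choose_spec
    have h3 := hb'.choose_spec
    have h4 : (p : ℤ_[p]) ∣ hb'.choose - ha'.choose := by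
      have h5 : PadicInt.toZMod (hb'.choose - ha'.choose) = 0 := by rw [map_sub, h1, sub_self]
      rw [← RingHom.mem_ker, PadicInt.ker_toZMod, PadicInt.maximalIdeal_eq_span_p,
        Ideal.mem_span_singleton] at h5
      exact h5
    have h6 : (b.1.1 - a.1.1) i j = (p : ℤ_[p]) ^ ve n s i j * (hb'.choose - ha'.choose) := by
      rw [mul_sub, ← h2, ← h3]
      simp only [Matrix.sub_apply]
      ring
    rw [h6, ve_succ, pow_succ]
    exact mul_dvd_mul_left _ h4
  obtain ⟨h1, h2⟩ := relIndex_le_of_fun (Gs p n (s + n)) (Gs p n s) f hf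
  refine ⟨h1, le_trans h2 (le_of_eq ?_)⟩
  rw [Nat.card_fun, Nat.card_fun, Nat.card_zmod, Nat.card_fin, ← pow_mul]

/-- `1 + pX` is invertible -/
theorem isUnit_one_add (X : Matrix (Fin n) (Fin n) ℤ_[p]) : IsUnit (1 + (p : ℤ_[p]) • X) := by
  rw [Matrix.isUnit_iff_isUnit_det]
  by_contra h
  have h1 : (1 + (p : ℤ_[p]) • X).det ∈ IsLocalRing.maximalIdeal ℤ_[p] := (IsLocalRing.mem_maximalIdeal _).2 h
  rw [← PadicInt.ker_toZMod, RingHom.mem_ker, RingHom.map_det, RingHom.mapMatrix_apply] at h1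
  have h2 : (1 + (p : ℤ_[p]) • X).map (PadicInt.toZMod (p := p)) = 1 := by
    ext i j
    simp only [Matrix.map_apply, Matrix.add_apply, Matrix.smul_apply, smul_eq_mul, map_add, map_mul,
      map_natCast, CharP.cast_eq_zero, zero_mul, add_zero]
    rcases eq_or_ne i j with h | h
    · subst h; simp
    · simp [Matrix.one_apply_ne h]
  rw [h2, Matrix.det_one] at h1
  exact one_ne_zero h1

/-- the element `1 + pX` of `G0` -/
noncomputable def elt (X : Matrix (Fin n) (Fin n) ℤ_[p]) : G0 p n :=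
  ⟨(isUnit_one_add X).unit, by
    rw [mem_G0]
    change (1 + (p : ℤ_[p]) • X) - 1 ∈ _
    rw [add_sub_cancel_left]
    exact smul_mem_J_one X⟩

theorem elt_val (X : Matrix (Fin n) (Fin n) ℤ_[p]) : (elt X).1.1 = 1 + (p : ℤ_[p]) • X := rfl

theorem G0_cls (w : G0 p n) (i : ℕ) :
    (centMod (Gs p n (1 + i * n)) w).index ≤ p ^ ((n * n - n) * i + n * n) := by
  classical
  have hne : NeZero (p ^ (i + 1)) := ⟨pow_ne_zero _ hp.out.ne_zero⟩
  have hne' : NeZero (p ^ i) := ⟨pow_ne_zero _ hp.out.ne_zero⟩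
  let f : G0 p n →* GL (Fin n) (ZMod (p ^ (i + 1))) := (red p n (i + 1)).comp (G0 p n).subtype
  have hfv : ∀ g : G0 p n, (f g).1 = g.1.1.map (PadicInt.toZModPow (i + 1)) := fun g => rfl
  have hfin : Finite (GL (Fin n) (ZMod (p ^ (i + 1)))) := by
    unfold Matrix.GeneralLinearGroup
    infer_instance
  let Z : Subgroup (GL (Fin n) (ZMod (p ^ (i + 1)))) := centralizer {f w}
  have h1 : Z.comap f ≤ centMod (Gs p n (1 + i * n)) w := by
    intro g hg
    rw [mem_comap, mem_centralizer_iff_commutator_eq_one] at hg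
    have h2 := hg (f w) rfl
    rw [mem_centMod]
    apply comm_mem_symm
    rw [← map_commutatorElement] at h2
    rw [mem_Gs]
    intro a b
    have h3 : (f ⁅w, g⁆).1 = 1 := by rw [h2]; rfl
    rw [hfv] at h3
    have h4 : PadicInt.toZModPow (i + 1) ((⁅w, g⁆.1.1 - 1) a b) = 0 := by
      have h5 := congrFun (congrFun h3 a) b
      rw [Matrix.map_apply] at h5
      rw [Matrix.sub_apply, map_sub, h5]
      rcases eq_or_ne a b with h | h
      · subst h; simp
      · simp [Matrix.one_apply_ne h]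
    rw [toZModPow_eq_zero_iff] at h4
    exact dvd_trans (pow_dvd_pow _ (ve_le n (1 + i * n) i a b le_rfl)) h4
  have h2 : (centMod (Gs p n (1 + i * n)) w).index ≤ Z.relIndex f.range := by
    rw [← index_comap]
    refine Nat.le_of_dvd (Nat.pos_of_ne_zero ?_) (index_dvd_of_le h1)
    rw [index_comap]
    exact relIndex_ne _ _
  refine le_trans h2 ?_
  have h3 := card_inf_mul_relIndex Z f.range
  have h4 : Nat.card f.range ≤ (p ^ (i + 1)) ^ (n * n) := by
    have h5 : Nat.card f.range ≤ Nat.card (Matrix (Fin n) (Fin n) (ZMod (p ^ (i + 1)))) := by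
      apply Nat.card_le_card_of_injective (fun g : f.range => (g : GL (Fin n) (ZMod (p ^ (i + 1)))).1)
      intro a b hab
      exact Subtype.ext (Units.ext hab)
    refine le_trans h5 (le_of_eq ?_)
    change Nat.card (Fin n → Fin n → ZMod (p ^ (i + 1))) = _
    rw [Nat.card_fun, Nat.card_fun, Nat.card_zmod, Nat.card_fin, ← pow_mul]
  -- the injection
  let T := {X : Matrix (Fin n) (Fin n) (ZMod (p ^ i)) //
      X * w.1.1.map (PadicInt.toZModPow i) = w.1.1.map (PadicInt.toZModPow i) * X}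
  have hT := cent_card w.1.1 i
  have hφs : Function.Surjective (PadicInt.toZModPow (p := p) i) := ZMod.ringHom_surjective _
  choose lift hlift using hφs
  have hliftm : ∀ X : Matrix (Fin n) (Fin n) (ZMod (p ^ i)), (X.map lift).map (PadicInt.toZModPow (p := p) i) = X := by
    intro X; ext a b; simp [hlift]
  have hcomm : ∀ X : T, f (elt (X.1.map lift)) ∈ f.range ⊓ Z := by
    intro X
    refine ⟨⟨_, rfl⟩, ?_⟩
    change _ ∈ centralizer _
    rw [mem_centralizer_iff]
    rintro _ rfl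
    apply Units.ext
    rw [Units.val_mul, Units.val_mul]
    have h5 : ∀ a b, (p : ℤ_[p]) ^ i ∣ (X.1.map lift * w.1.1 - w.1.1 * X.1.map lift) a b := by
      intro a b
      rw [← toZModPow_eq_zero_iff]
      have h6 : (X.1.map lift * w.1.1 - w.1.1 * X.1.map lift).map (PadicInt.toZModPow (p := p) i) = 0 := by
        have h7 := map_sub (RingHom.mapMatrix (m := Fin n) (PadicInt.toZModPow (p := p) i)) (X.1.map lift * w.1.1) (w.1.1 * X.1.map lift)
        rw [map_mul, map_mul] at h7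
        simp only [RingHom.mapMatrix_apply] at h7
        rw [h7, hliftm, X.2, sub_self]
      have h8 := congrFun (congrFun h6 a) b
      exact h8
    have h9 : ((elt (X.1.map lift)).1.1 * w.1.1 - w.1.1 * (elt (X.1.map lift)).1.1).map (PadicInt.toZModPow (p := p) (i + 1)) = 0 := by
      ext a b
      rw [Matrix.map_apply, Matrix.zero_apply, toZModPow_eq_zero_iff]
      have e : (elt (X.1.map lift)).1.1 * w.1.1 - w.1.1 * (elt (X.1.map lift)).1.1 =
          (p : ℤ_[p]) • (X.1.map lift * w.1.1 - w.1.1 * X.1.map lift) := by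
        rw [elt_val, add_mul, mul_add, one_mul, mul_one, smul_mul_assoc, mul_smul_comm, smul_sub]
        abel
      rw [e, Matrix.smul_apply, smul_eq_mul, pow_succ']
      exact mul_dvd_mul_left _ (h5 a b)
    have h10 := map_sub (RingHom.mapMatrix (m := Fin n) (PadicInt.toZModPow (p := p) (i + 1)))
      ((elt (X.1.map lift)).1.1 * w.1.1) (w.1.1 * (elt (X.1.map lift)).1.1)
    rw [map_mul, map_mul] at h10
    simp only [RingHom.mapMatrix_apply] at h10
    rw [h9] at h10
    exact (sub_eq_zero.1 h10.symm).symm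
  have h5 : Nat.card T ≤ Nat.card ↥(f.range ⊓ Z) := by
    apply Nat.card_le_card_of_injective (fun X : T => (⟨f (elt (X.1.map lift)), hcomm X⟩ : ↥(f.range ⊓ Z)))
    intro X Y hXY
    have h6 : f (elt (X.1.map lift)) = f (elt (Y.1.map lift)) := congrArg Subtype.val hXY
    have h7 := congrArg Units.val h6
    rw [hfv, hfv, elt_val, elt_val] at h7
    apply Subtype.ext
    rw [← hliftm X.1, ← hliftm Y.1]
    ext a b
    have h8 := congrFun (congrFun h7 a) b
    simp only [Matrix.map_apply, Matrix.add_apply, Matrix.smul_apply, smul_eq_mul] at h8 ⊢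
    rw [← sub_eq_zero, ← map_sub, toZModPow_eq_zero_iff] at h8 ⊢
    rw [add_sub_add_left_eq_sub, ← mul_sub, pow_succ'] at h8
    exact (mul_dvd_mul_iff_left (Nat.cast_ne_zero.2 hp.out.ne_zero)).1 h8
  -- conclusion
  have hpos : 0 < (p ^ i) ^ (n * n) := pow_pos (pow_pos hp.out.pos _) _
  refine Nat.le_of_mul_le_mul_right ?_ hpos
  calc Z.relIndex f.range * (p ^ i) ^ (n * n)
      ≤ Z.relIndex f.range * (Nat.card T * (p ^ i) ^ (n * n - n)) := Nat.mul_le_mul_left _ hT
    _ ≤ Z.relIndex f.range * (Nat.card ↥(f.range ⊓ Z) * (p ^ i) ^ (n * n - n)) :=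
        Nat.mul_le_mul_left _ (Nat.mul_le_mul_right _ h5)
    _ = (Nat.card ↥(f.range ⊓ Z) * Z.relIndex f.range) * (p ^ i) ^ (n * n - n) := by ring
    _ = Nat.card f.range * (p ^ i) ^ (n * n - n) := by rw [h3]
    _ ≤ (p ^ (i + 1)) ^ (n * n) * (p ^ i) ^ (n * n - n) := Nat.mul_le_mul_right _ h4
    _ = p ^ ((n * n - n) * i + n * n) * (p ^ i) ^ (n * n) := by
        rw [← pow_mul, ← pow_mul, ← pow_mul, ← pow_add, ← pow_add]
        congr 1
        ring

theorem G0_sys (hpn : n + 2 ≤ p) : Sys p n (n * n) (n * n - n) (Gs p n) where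
  anti := fun s t hst g hg => J_antitone hst hg
  one := by
    rw [eq_top_iff]
    intro g _
    exact mem_G0.1 g.2
  iso := fun s hs a b => G0_iso hpn s hs a b
  idx := fun s _ => G0_idx s
  cls := ⟨n * n, fun w i => G0_cls w i⟩

theorem red_mem_P {m : ℕ} (hm : 1 ≤ m) (g : G0 p n) : red p n m g.1 ∈ P p m n := by
  rw [mem_P, red_apply, pcond_map hm, pcond_iff]
  exact mem_G0.1 g.2

/-- the reduction map onto `P_n(ℤ/p^m)` -/
noncomputable def redP (p n : ℕ) [Fact p.Prime] {m : ℕ} (hm : 1 ≤ m) : G0 p n →* P p m n :=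
  ((red p n m).comp (G0 p n).subtype).codRestrict (P p m n) (fun g => red_mem_P hm g)

theorem redP_surjective {m : ℕ} (hm : 1 ≤ m) : Function.Surjective (redP p n hm) := by
  rintro ⟨g, hg⟩
  have hne : NeZero (p ^ m) := ⟨pow_ne_zero _ hp.out.ne_zero⟩
  have hnt : Nontrivial (ZMod (p ^ m)) := ZMod.nontrivial_iff.2 (by
    have := Nat.one_lt_pow (by omega : m ≠ 0) hp.out.one_lt
    omega)
  have hφs : Function.Surjective (PadicInt.toZModPow (p := p) m) := ZMod.ringHom_surjective _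
  choose lift hlift using hφs
  let A : Matrix (Fin n) (Fin n) ℤ_[p] := g.1.map lift
  have hA : A.map (PadicInt.toZModPow (p := p) m) = g.1 := by
    ext a b; simp [A, hlift]
  have hU : IsUnit A := by
    rw [Matrix.isUnit_iff_isUnit_det]
    have hloc : IsLocalHom (PadicInt.toZModPow (p := p) m) := IsLocalHom.of_surjective _ (ZMod.ringHom_surjective _)
    apply hloc.map_nonunit
    rw [RingHom.map_det, RingHom.mapMatrix_apply, hA]
    exact (Matrix.isUnit_iff_isUnit_det _).1 g.isUnit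
  have hmem : hU.unit ∈ G0 p n := by
    rw [mem_G0, ← pcond_iff]
    change PCond (p : ℤ_[p]) A
    rw [← pcond_map hm, hA]
    exact hg
  refine ⟨⟨hU.unit, hmem⟩, ?_⟩
  apply Subtype.ext
  apply Units.ext
  exact hA

theorem regular_all (p n m : ℕ) [hp : Fact p.Prime] (h : n ^ 2 + 1 < p + n) : IsRegular p (P p m n) := by
  rcases Nat.lt_or_ge n 2 with hn | hn
  · -- commutative case
    intro x y
    have hss : Subsingleton (Fin n) := by
      rw [← not_nontrivial_iff_subsingleton]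
      intro hnt
      have := Fin.nontrivial_iff_two_le.1 hnt
      omega
    have hc : x * y = y * x := by
      apply Subtype.ext
      apply Units.ext
      change x.1.1 * y.1.1 = y.1.1 * x.1.1
      ext i j
      have hij : j = i := Subsingleton.elim _ _
      subst hij
      rw [Matrix.mul_apply, Matrix.mul_apply]
      refine Finset.sum_congr rfl fun k _ => ?_
      have hk : k = j := Subsingleton.elim _ _
      subst hk
      exact mul_comm _ _
    refine ⟨[], by simp, ?_⟩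
    have : (x * y) ^ p = x ^ p * y ^ p := (Commute.mul_pow hc p)
    rw [this]; simp
  · rcases Nat.eq_zero_or_pos m with rfl | hm
    · intro x y
      have hss : Subsingleton (ZMod (p ^ 0)) := by
        rw [pow_zero]; infer_instance
      have hss2 : ∀ a b : P p 0 n, a = b := by
        intro a b
        apply Subtype.ext
        apply Units.ext
        exact Subsingleton.elim _ _
      exact ⟨[], fun c hc => absurd hc List.not_mem_nil, hss2 _ _⟩
    · have hpp := hp.out
      have hsq : n ^ 2 = n * n := sq n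
      have hnn : n ≤ n * n := Nat.le_mul_self n
      obtain ⟨k, hk⟩ : ∃ k, n * n - n = 2 * k := by
        obtain ⟨r, rfl⟩ : ∃ r, n = r + 1 := ⟨n - 1, by omega⟩
        have h1 : (r + 1) * (r + 1) - (r + 1) = r * (r + 1) := by
          have : (r + 1) * (r + 1) = r * (r + 1) + (r + 1) := by ring
          omega
        rw [h1]
        obtain ⟨t, ht⟩ := Nat.even_mul_succ_self r
        exact ⟨t, by rw [ht]; ring⟩
      have h2n : 2 * n ≤ n * n := Nat.mul_le_mul_right n hn
      have hk1 : 1 ≤ k := by omega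
      have h3 : n * n - n + 3 ≤ p := by
        have h4 : n * n - n + 2 ≤ p := by omega
        rcases Nat.lt_or_ge (n * n - n + 2) p with h5 | h5
        · exact h5
        · exfalso
          have h6 : p = 2 * (k + 1) := by omega
          have h7 : 2 ∣ p := ⟨k + 1, h6⟩
          have h8 := (Nat.prime_dvd_prime_iff_eq Nat.prime_two hpp).1 h7
          omega
      have hn2 : n + 2 ≤ p := by omega
      have hd : n * n + 4 ≤ 2 * p := by omega
      intro x y
      obtain ⟨x, rfl⟩ := redP_surjective hm x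
      obtain ⟨y, rfl⟩ := redP_surjective hm y
      refine (G0_sys hn2).regPair hpp (by omega) (by omega) hd h3 (redP p n hm) (m * n) ?_ x y
      intro g hg
      rw [MonoidHom.mem_ker]
      apply Subtype.ext
      apply Units.ext
      change g.1.1.map (PadicInt.toZModPow m) = 1
      ext a b
      rw [Matrix.map_apply]
      have h9 := dvd_trans (pow_dvd_pow (p : ℤ_[p]) (le_ve n (m * n) m a b le_rfl)) (mem_Gs.1 hg a b)
      rw [← toZModPow_eq_zero_iff, Matrix.sub_apply, map_sub, sub_eq_zero] at h9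
      rw [h9]
      rcases eq_or_ne a b with h10 | h10
      · subst h10; simp
      · simp [Matrix.one_apply_ne h10]

end

end Pool.Agent.Helper43Reg
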